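import Pool.Agent.P.MP_3c2f8c_gt.NT.Compl

/-! NT-5: weak approximation for number fields. -/

namespace Pool.Agent.P.MP_3c2f8c_gt

open Matrix NumberField IsDedekindDomain
open Pool.Agent.P.MP_9ec3f0_nt.SY

namespace WAAux

theorem abs_approx {F : Type} [Field F] {ι : Type} [Finite ι] (v : ι → AbsoluteValue F ℝ)
    (h : ∀ i, (v i).IsNontrivial) (hv : Pairwise fun i j => ¬(v i).IsEquiv (v j)) (z : ι → F)
    (ε : ι → ℝ) (hε : ∀ i, 0 < ε i) : ∃ x : F, ∀ i, v i (x - z i) < ε i := by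
  have hd := AbsoluteValue.denseRange_algebraMap_pi h hv
  have ho : IsOpen (Set.pi Set.univ fun i => Metric.ball (WithAbs.toAbs (v i) (z i)) (ε i)) :=
    isOpen_set_pi Set.finite_univ fun _ _ => Metric.isOpen_ball
  obtain ⟨x, hx⟩ := hd.exists_mem_open ho
    ⟨fun i => WithAbs.toAbs (v i) (z i), fun i _ => Metric.mem_ball_self (hε i)⟩
  refine ⟨x, fun i => ?_⟩
  have := hx i (Set.mem_univ i)
  rw [Metric.mem_ball, dist_eq_norm, WithAbs.norm_eq_apply_ofAbs] at this
  exact this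

theorem place_equiv {F : Type} [Field F] [CharZero F] {φ ψ : F →+* ℝ}
    (h : (place φ).IsEquiv (place ψ)) (a : F) : ψ a ≤ φ a := by
  by_contra hlt
  rw [not_le] at hlt
  obtain ⟨q1, h1, h2⟩ := exists_rat_btwn hlt
  obtain ⟨q0, h0⟩ := exists_rat_lt (φ a)
  have h3 := h (a - q0) ((q1 - q0 : ℚ) : F)
  simp only [place_apply, map_sub, map_ratCast, Real.norm_eq_abs, Rat.cast_sub] at h3
  rw [abs_of_pos (by linarith), abs_of_pos (by linarith), abs_of_pos (by linarith)] at h3
  have := h3.1 (by linarith)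
  linarith

variable {F : Type} [Field F] [NumberField F]

theorem abv_lt (v : Pr F) (x y : F) :
    HeightOneSpectrum.adicAbv F v x < HeightOneSpectrum.adicAbv F v y ↔
      v.valuation F x < v.valuation F y := by
  rw [HeightOneSpectrum.adicAbv_def, HeightOneSpectrum.adicAbv_def, NNReal.coe_lt_coe]
  exact (WithZeroMulInt.toNNReal_strictMono
    (HeightOneSpectrum.one_lt_absNorm_nnreal v)).lt_iff_lt

theorem abv_lt_one (v : Pr F) (x : F) :
    HeightOneSpectrum.adicAbv F v x < 1 ↔ v.valuation F x < 1 := by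
  have := abv_lt v x 1
  rwa [map_one, map_one] at this

theorem approx (S : Finset (Pr F)) (y : ∀ v : Pr F, v.adicCompletion F) (k : Pr F → ℤ)
    (r : (F →+* ℝ) → ℝ) (ε : (F →+* ℝ) → ℝ) (hε : ∀ φ, 0 < ε φ) :
    ∃ x : F, (∀ v ∈ S, Valued.v (algebraMap F (v.adicCompletion F) x - y v) <
      WithZero.exp (k v)) ∧ ∀ φ : F →+* ℝ, |φ x - r φ| < ε φ := by
  classical
  choose z hz using fun v : Pr F => exists_close v (y v) (k v)
  have hq' : ∀ φ : F →+* ℝ, ∃ q : ℚ, |r φ - q| < ε φ / 2 := fun φ =>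
    exists_rat_near (r φ) (half_pos (hε φ))
  choose q hq using hq'
  obtain ⟨t, ht0, ht⟩ := exists_ord_eq S (fun v => -k v)
  have h2 : ∀ (v : Pr F) (φ : F →+* ℝ),
      ¬ (HeightOneSpectrum.adicAbv F v).IsEquiv (place φ) := by
    intro v φ h
    have h1 := h.le_one_iff.1 (HeightOneSpectrum.adicAbv_natCast_le_one F v 2)
    rw [place_apply, map_natCast] at h1
    norm_num at h1
  obtain ⟨x, hx⟩ := abs_approx (ι := S ⊕ (F →+* ℝ))
    (Sum.elim (fun v => HeightOneSpectrum.adicAbv F v.1) (fun φ => place φ))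
    (by
      rintro (v | φ)
      · obtain ⟨s, hs0, hs⟩ := exists_ord_eq {v.1} (fun _ => 1)
        refine ⟨s, hs0, ne_of_lt ?_⟩
        refine (abv_lt_one v.1 s).2 ((val_lt_one_iff _ hs0).2 ?_)
        rw [hs _ (Finset.mem_singleton_self _)]
        exact one_pos
      · refine ⟨2, two_ne_zero, ?_⟩
        change place φ 2 ≠ 1
        rw [place_apply, map_ofNat]
        norm_num)
    (by
      rintro (v | φ) (w | ψ) hne h
      · have hvw : v.1 ≠ w.1 := fun e => hne (congrArg Sum.inl (Subtype.ext e))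
        obtain ⟨s, hs0, hs⟩ := exists_ord_eq {v.1, w.1} (fun u => if u = v.1 then 1 else 0)
        have h3 : HeightOneSpectrum.adicAbv F v.1 s < 1 := by
          refine (abv_lt_one v.1 s).2 ((val_lt_one_iff _ hs0).2 ?_)
          rw [hs _ (by simp), if_pos rfl]
          exact one_pos
        have h4 := (val_lt_one_iff _ hs0).1 ((abv_lt_one w.1 s).1 (h.lt_one_iff.1 h3))
        rw [hs _ (by simp), if_neg hvw.symm] at h4
        exact lt_irrefl _ h4
      · exact h2 _ _ h
      · exact h2 _ _ h.symm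
      · exact hne (congrArg Sum.inr (RingHom.ext fun a =>
          le_antisymm (place_equiv h.symm a) (place_equiv h a))))
    (Sum.elim (fun v => z v.1) (fun φ => (q φ : F)))
    (Sum.elim (fun v => HeightOneSpectrum.adicAbv F v.1 t) (fun φ => ε φ / 2))
    (by
      rintro (v | φ)
      · exact (HeightOneSpectrum.adicAbv F v.1).pos ht0
      · exact half_pos (hε φ))
  refine ⟨x, fun v hv => ?_, fun φ => ?_⟩
  · have h3 := (abv_lt v _ _).1 (hx (Sum.inl ⟨v, hv⟩))
    rw [ValAux.val_eq_exp v ht0, ht v hv, neg_neg, ← adic_v_algebraMap] at h3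
    have h4 : algebraMap F (v.adicCompletion F) x - y v =
        algebraMap F (v.adicCompletion F) (x - z v) +
          (algebraMap F (v.adicCompletion F) (z v) - y v) := by
      rw [map_sub]
      ring
    rw [h4]
    exact Valuation.map_add_lt _ h3 (hz v)
  · have h3 : place φ (x - (q φ : F)) < ε φ / 2 := hx (Sum.inr φ)
    rw [place_apply, map_sub, map_ratCast, Real.norm_eq_abs] at h3
    have h4 := hq φ
    rw [abs_lt] at h3 h4 ⊢
    constructor <;> linarith [h3.1, h3.2, h4.1, h4.2]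

end WAAux

variable {F : Type} [Field F] [NumberField F]

theorem weak_approx (S : Finset (Pr F)) (y : ∀ v : Pr F, v.adicCompletion F) (k : ℤ)
    (r : (F →+* ℝ) → ℝ) {ε : ℝ} (hε : 0 < ε) :
    ∃ x : F, (∀ v ∈ S, Valued.v (algebraMap F (v.adicCompletion F) x - y v) < WithZero.exp k) ∧
      ∀ φ : F →+* ℝ, |φ x - r φ| < ε :=
  WAAux.approx S y (fun _ => k) r (fun _ => ε) fun _ => hε

/-- Weak approximation of square classes. -/
theorem weak_approx_sq (S : Finset (Pr F)) (y : ∀ v : Pr F, v.adicCompletion F)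
    (hy : ∀ v ∈ S, y v ≠ 0) (r : (F →+* ℝ) → ℝ) (hr : ∀ φ, r φ ≠ 0) :
    ∃ x : F, x ≠ 0 ∧ (∀ v ∈ S, IsSquare (algebraMap F (v.adicCompletion F) x * y v)) ∧
      ∀ φ : F →+* ℝ, 0 < φ x * r φ := by
  obtain ⟨x, h1, h2⟩ := WAAux.approx S y (fun v => WithZero.log (Valued.v (4 * y v))) r
    (fun φ => |r φ|) fun φ => abs_pos.2 (hr φ)
  have h3 : ∀ v ∈ S, Valued.v (algebraMap F (v.adicCompletion F) x - y v) <
      Valued.v (4 : v.adicCompletion F) * Valued.v (y v) := by
    intro v hv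
    have := adic_charZero v
    have h4 := h1 v hv
    rwa [WithZero.exp_log ((Valuation.ne_zero_iff _).2 (mul_ne_zero (by norm_num) (hy v hv))),
      map_mul] at h4
  have h5 : ∀ φ : F →+* ℝ, 0 < φ x * r φ := by
    intro φ
    have h6 := sq_lt_sq.2 (h2 φ)
    nlinarith [sq_nonneg (φ x)]
  by_cases hx : x = 0
  · refine ⟨1, one_ne_zero, fun v hv => ?_, fun φ => ?_⟩
    · exfalso
      have h4 := h3 v hv
      have h6 : Valued.v (4 : v.adicCompletion F) ≤ 1 := by
        have := ValAux.val_four_le v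
        rwa [← adic_v_algebraMap, map_ofNat] at this
      rw [hx, map_zero, zero_sub, Valuation.map_neg] at h4
      exact absurd (h4.trans_le (mul_le_of_le_one_left' h6)) (lt_irrefl _)
    · have := h5 φ
      rw [hx, map_zero, zero_mul] at this
      exact absurd this (lt_irrefl _)
  refine ⟨x, hx, fun v hv => ?_, h5⟩
  have := adic_charZero v
  obtain ⟨L, hL⟩ := exists_adicLF v
  have hy0 := hy v hv
  have h7 : IsSquare (algebraMap F (v.adicCompletion F) x / y v) := by
    refine L.isSquare_of_lt ?_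
    rw [hL, div_sub_one hy0, map_div₀,
      div_lt_iff₀ (zero_lt_iff.2 ((Valuation.ne_zero_iff _).2 hy0))]
    exact h3 v hv
  have h8 : algebraMap F (v.adicCompletion F) x * y v =
      algebraMap F (v.adicCompletion F) x / y v * (y v * y v) := by
    field_simp
  rw [h8]
  exact h7.mul ⟨y v, rfl⟩

/-- Weak approximation for the rationals, in terms of `p`-adic norms. -/
theorem rat_approx (S : Finset Nat.Primes)
    (y : ∀ p : Nat.Primes, @Padic p.1 ⟨p.2⟩) (r : ℝ) {ε : ℝ} (hε : 0 < ε) :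
    ∃ x : ℚ, (∀ p ∈ S, haveI : Fact p.1.Prime := ⟨p.2⟩; ‖(x : ℚ_[p.1]) - y p‖ < ε) ∧
      |(x : ℝ) - r| < ε := by
  have hz' : ∀ p : Nat.Primes, ∃ z : ℚ,
      haveI : Fact p.1.Prime := ⟨p.2⟩; ‖y p - (z : ℚ_[p.1])‖ < ε / 2 := fun p =>
    haveI : Fact p.1.Prime := ⟨p.2⟩
    Padic.rat_dense _ _ (half_pos hε)
  choose z hz using hz'
  obtain ⟨q, hq⟩ := exists_rat_near r (half_pos hε)
  have h1 : ∀ p : Nat.Primes, @Rat.AbsoluteValue.padic p.1 ⟨p.2⟩ (p.1 : ℚ) < 1 := by
    intro p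
    have : Fact p.1.Prime := ⟨p.2⟩
    rw [Rat.AbsoluteValue.padic_eq_padicNorm]
    exact_mod_cast padicNorm.padicNorm_p_lt_one_of_prime
  have h2 : ∀ p : Nat.Primes,
      ¬ (@Rat.AbsoluteValue.padic p.1 ⟨p.2⟩).IsEquiv Rat.AbsoluteValue.real := by
    intro p h
    have h3 := h.lt_one_iff.1 (h1 p)
    rw [Rat.AbsoluteValue.real_eq_abs, Nat.abs_cast] at h3
    have h4 : p.1 < 1 := by exact_mod_cast h3
    exact absurd p.2.one_lt (by omega)
  obtain ⟨x, hx⟩ := WAAux.abs_approx (ι := S ⊕ Unit)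
    (Sum.elim (fun p => @Rat.AbsoluteValue.padic p.1.1 ⟨p.1.2⟩) (fun _ => Rat.AbsoluteValue.real))
    (by
      rintro (p | u)
      · exact ⟨p.1.1, Nat.cast_ne_zero.2 p.1.2.ne_zero, (h1 p.1).ne⟩
      · refine ⟨2, two_ne_zero, ?_⟩
        change Rat.AbsoluteValue.real 2 ≠ 1
        rw [Rat.AbsoluteValue.real_eq_abs]
        norm_num)
    (by
      rintro (p | u) (p' | u') hne h
      · have hpp : p'.1.1 ≠ p.1.1 := fun e =>
          hne (congrArg Sum.inl (Subtype.ext (Subtype.ext e.symm)))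
        have : Fact p.1.1.Prime := ⟨p.1.2⟩
        have : Fact p'.1.1.Prime := ⟨p'.1.2⟩
        have h3 : Rat.AbsoluteValue.padic p'.1.1 (p.1.1 : ℚ) < 1 := h.lt_one_iff.1 (h1 p.1)
        rw [Rat.AbsoluteValue.padic_eq_padicNorm, padicNorm.padicNorm_of_prime_of_ne hpp] at h3
        norm_num at h3
      · exact h2 _ h
      · exact h2 _ h.symm
      · exact hne rfl)
    (Sum.elim (fun p => z p.1) (fun _ => q)) (fun _ => ε / 2) (fun _ => half_pos hε)
  refine ⟨x, fun p hp => ?_, ?_⟩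
  · have : Fact p.1.Prime := ⟨p.2⟩
    have h3 : Rat.AbsoluteValue.padic p.1 (x - z p) < ε / 2 := hx (Sum.inl ⟨p, hp⟩)
    rw [Rat.AbsoluteValue.padic_eq_padicNorm, ← Padic.eq_padicNorm, Rat.cast_sub] at h3
    have h4 : ‖y p - (z p : ℚ_[p.1])‖ < ε / 2 := hz p
    have h5 := norm_sub_le ((x : ℚ_[p.1]) - z p) (y p - z p)
    rw [sub_sub_sub_cancel_right] at h5
    linarith
  · have h3 : Rat.AbsoluteValue.real (x - q) < ε / 2 := hx (Sum.inr ())
    rw [Rat.AbsoluteValue.real_eq_abs, Rat.cast_abs, Rat.cast_sub] at h3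
    rw [abs_lt] at h3 hq ⊢
    constructor <;> linarith [h3.1, h3.2, hq.1, hq.2]

end Pool.Agent.P.MP_3c2f8c_gt
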