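import Mathlib

/-!
Definitions for the number-theoretic part: norms from quadratic extensions, isotropy, abstract
local fields, local conditions.
-/

namespace Pool.Agent.P.MP_3c2f8c_gt

open Matrix

/-- `b` is a norm from `R[√a]`. -/
def IsNm {R : Type} [CommRing R] (a b : R) : Prop := ∃ x y : R, b = x ^ 2 - a * y ^ 2

/-- The diagonal quadratic form with coefficients `a` is isotropic. -/
def Iso {R ι : Type} [CommRing R] [Fintype ι] (a : ι → R) : Prop :=
  ∃ x : ι → R, x ≠ 0 ∧ ∑ i, a i * x i ^ 2 = 0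

/-- The quadratic form with Gram matrix `A` is isotropic. -/
def IsoM {R ι : Type} [CommRing R] [Fintype ι] (A : Matrix ι ι R) : Prop :=
  ∃ x : ι → R, x ≠ 0 ∧ x ⬝ᵥ A *ᵥ x = 0

/-- A henselian discretely valued field with finite residue field. -/
structure LF (E : Type) [Field E] where
  v : Valuation E (WithZero (Multiplicative ℤ))
  π : E
  v_π : v π = WithZero.exp (-1)
  hensel : ∀ μ : E, v μ < 1 → ∃ x : E, x ^ 2 + x = μ
  fin : ∃ s : Finset E, (∀ r ∈ s, v r ≤ 1) ∧ ∀ x : E, v x ≤ 1 → ∃ r ∈ s, v (x - r) < 1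

/-- The property `P` holds in every field that receives `R` and some `ℚ_p`, and for every
real point of `R`. -/
def LocAll (R : Type) [CommRing R] (P : ∀ (L : Type) [Field L], (R →+* L) → Prop) : Prop :=
  (∀ (p : ℕ) [Fact p.Prime] (L : Type) [Field L] (ψ : R →+* L), (ℚ_[p] →+* L) → P L ψ) ∧
    ∀ ψ : R →+* ℝ, P ℝ ψ

end Pool.Agent.P.MP_3c2f8c_gt
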