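import Pool.Agent.P.MP_3c2f8c_gt.NT.Norm

/-! NT-9: the Hasse-Minkowski theorem. -/

namespace Pool.Agent.P.MP_3c2f8c_gt

open Matrix NumberField IsDedekindDomain
open Pool.Agent.P.MP_9ec3f0_nt.SY

variable {F : Type} [Field F] [NumberField F]

namespace HMAux

section
variable {E L : Type} [Field E] [CharZero E] [Field L]

theorem map4 (φ : E →+* L) {a b c d : E} (h : Iso ![a, b, c, d]) : Iso ![φ a, φ b, φ c, φ d] := by
  have e : ![φ a, φ b, φ c, φ d] = fun i => φ (![a, b, c, d] i) := by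
    funext i
    fin_cases i <;> rfl
  rw [e]
  exact h.map φ

omit [CharZero E] in
theorem nm3 [CharZero L] (ψ : E →+* L) {a b c : E} (ha : a ≠ 0) (hb : b ≠ 0) (hc : c ≠ 0)
    (h : Iso ![ψ a, ψ b, ψ c]) : IsNm (ψ (-(a * c))) (ψ (-(a * b))) := by
  rw [map_neg, map_neg, map_mul, map_mul]
  exact (iso3_iff ((map_ne_zero ψ).2 ha) ((map_ne_zero ψ).2 hb) ((map_ne_zero ψ).2 hc)).1 h

omit [CharZero E] in
theorem loc3 [CharZero L] (ψ : E →+* L) {a b c d : E} (ha : a ≠ 0) (hb : b ≠ 0) (hc : c ≠ 0)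
    (hd : d ≠ 0) (hs : IsSquare (ψ (a * b * c * d))) (h : Iso ![ψ a, ψ b, ψ c, ψ d]) :
    Iso ![ψ a, ψ b, ψ c] :=
  iso3_of_iso4 ((map_ne_zero ψ).2 ha) ((map_ne_zero ψ).2 hb) ((map_ne_zero ψ).2 hc)
    ((map_ne_zero ψ).2 hd) (by simpa only [map_mul] using hs) h

theorem of_inj {ι κ : Type} [Fintype ι] [Fintype κ] {d : ι → L} (f : κ → ι)
    (hf : Function.Injective f) (h : Iso fun i => d (f i)) : Iso d := by
  obtain ⟨x, hx, h⟩ := h
  refine ⟨Function.extend f x 0, fun e => hx (funext fun i => ?_), ?_⟩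
  · rw [← hf.extend_apply x 0 i, e]
    rfl
  · rw [← h]
    refine (Fintype.sum_of_injective f hf _ _ (fun i hi => ?_) fun i => ?_).symm
    · rw [Function.extend_apply' _ _ _ hi]
      simp
    · rw [hf.extend_apply]

theorem isoM_iff {ι : Type} [Fintype ι] [DecidableEq ι] {A P : Matrix ι ι L} {d : ι → L}
    (hP : IsUnit P) (h : Pᵀ * A * P = diagonal d) : IsoM A ↔ Iso d := by
  have key : ∀ x : ι → L, (P *ᵥ x) ⬝ᵥ A *ᵥ (P *ᵥ x) = ∑ i, d i * x i ^ 2 := fun x => by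
    rw [mulVec_mulVec, ← vecMul_transpose, ← dotProduct_mulVec, mulVec_mulVec, ← Matrix.mul_assoc,
      h, dotProduct]
    refine Finset.sum_congr rfl fun i _ => ?_
    rw [mulVec_diagonal]
    ring
  constructor
  · rintro ⟨y, hy, e⟩
    obtain ⟨x, rfl⟩ := mulVec_surjective_iff_isUnit.2 hP y
    exact ⟨x, fun e' => hy (by rw [e', mulVec_zero]), (key x).symm.trans e⟩
  · rintro ⟨x, hx, e⟩
    exact ⟨P *ᵥ x, fun e' => hx (mulVec_injective_iff_isUnit.2 hP (by rw [e', mulVec_zero])),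
      (key x).trans e⟩

theorem small (c : WithZero (Multiplicative ℤ)) {γ : WithZero (Multiplicative ℤ)} (hγ : γ ≠ 0) :
    ∃ k : ℤ, ∀ δ < WithZero.exp k, c * δ < γ := by
  by_cases hc : c = 0
  · exact ⟨0, fun δ _ => by rw [hc, zero_mul]; exact zero_lt_iff.2 hγ⟩
  · refine ⟨WithZero.log γ - WithZero.log c, fun δ h => ?_⟩
    rwa [WithZero.exp_sub, WithZero.exp_log hγ, WithZero.exp_log hc,
      lt_div_iff₀ (zero_lt_iff.2 hc), mul_comm] at h

theorem close (v : Valuation L (WithZero (Multiplicative ℤ))) (a x₀ : L)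
    {γ : WithZero (Multiplicative ℤ)} (hγ : γ ≠ 0) :
    ∃ k : ℤ, ∀ x, v (x - x₀) < WithZero.exp k → v (a * x ^ 2 - a * x₀ ^ 2) < γ := by
  obtain ⟨k, hk⟩ := small (v a) hγ
  obtain ⟨l, hl⟩ := small (v (2 * a * x₀)) hγ
  refine ⟨min 0 (min k l), fun x hx => ?_⟩
  have h0 : v (x - x₀) < 1 := hx.trans_le (WithZero.exp_le_exp.2 (min_le_left _ _))
  have h1 := hk _ (hx.trans_le (WithZero.exp_le_exp.2 (by omega)))
  have h2 := hl _ (hx.trans_le (WithZero.exp_le_exp.2 (by omega)))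
  rw [show a * x ^ 2 - a * x₀ ^ 2 = a * (x - x₀) * (x - x₀) + 2 * a * x₀ * (x - x₀) by ring]
  refine v.map_add_lt ?_ (by rwa [map_mul])
  rw [map_mul, map_mul]
  exact (mul_le_of_le_one_right' h0.le).trans_lt h1

theorem near (Λ : LF E) {a b x₀ y₀ : E} (ht : a * x₀ ^ 2 + b * y₀ ^ 2 ≠ 0) :
    ∃ k : ℤ, ∀ x y, Λ.v (x - x₀) < WithZero.exp k → Λ.v (y - y₀) < WithZero.exp k →
      a * x ^ 2 + b * y ^ 2 ≠ 0 ∧
        IsSquare ((a * x₀ ^ 2 + b * y₀ ^ 2) * (a * x ^ 2 + b * y ^ 2)) := by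
  have h0 : Λ.v (a * x₀ ^ 2 + b * y₀ ^ 2) ≠ 0 := (map_ne_zero Λ.v).2 ht
  have hγ : Λ.v 4 * Λ.v (a * x₀ ^ 2 + b * y₀ ^ 2) ≠ 0 :=
    mul_ne_zero ((map_ne_zero Λ.v).2 (by norm_num)) h0
  obtain ⟨k, hk⟩ := close Λ.v a x₀ (lt_min (zero_lt_iff.2 hγ) (zero_lt_iff.2 h0)).ne'
  obtain ⟨l, hl⟩ := close Λ.v b y₀ (lt_min (zero_lt_iff.2 hγ) (zero_lt_iff.2 h0)).ne'
  refine ⟨min k l, fun x y hx hy => ?_⟩
  have h1 := Λ.v.map_add_lt (hk x (hx.trans_le (WithZero.exp_le_exp.2 (min_le_left _ _))))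
    (hl y (hy.trans_le (WithZero.exp_le_exp.2 (min_le_right _ _))))
  rw [sub_add_sub_comm, lt_min_iff] at h1
  generalize a * x₀ ^ 2 + b * y₀ ^ 2 = s at *
  generalize a * x ^ 2 + b * y ^ 2 = t at *
  refine ⟨fun e => ?_, ?_⟩
  · rw [e, zero_sub, Valuation.map_neg] at h1
    exact lt_irrefl _ h1.2
  · have h2 : IsSquare (t / s) := Λ.isSquare_of_lt (by
      rw [div_sub_one ht, map_div₀, div_lt_iff₀ (zero_lt_iff.2 h0)]
      exact h1.1)
    rw [show s * t = t / s * (s * s) by field_simp]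
    exact h2.mul (IsSquare.mul_self s)

end

theorem fin_ne {x : F} (hx : x ≠ 0) : {v : Pr F | v.valuation F x ≠ 1}.Finite := by
  refine ((HeightOneSpectrum.Support.finite (𝓞 F) x).union
    (HeightOneSpectrum.Support.finite (𝓞 F) x⁻¹)).subset fun v hv => ?_
  refine (lt_or_gt_of_ne hv).symm.imp id fun h => ?_
  change 1 < v.valuation F x⁻¹
  rw [map_inv₀]
  exact (one_lt_inv₀ (zero_lt_iff.2 ((map_ne_zero _).2 hx))).2 h

end HMAux

open HMAux

theorem hm3_adic {a b c : F}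
    (hfin : ∀ v : Pr F, Iso ![algebraMap F (v.adicCompletion F) a,
      algebraMap F (v.adicCompletion F) b, algebraMap F (v.adicCompletion F) c])
    (hre : ∀ φ : F →+* ℝ, Iso ![φ a, φ b, φ c]) : Iso ![a, b, c] := by
  by_cases ha : a = 0
  · exact Iso.of_zero (i := 0) ha
  by_cases hb : b = 0
  · exact Iso.of_zero (i := 1) hb
  by_cases hc : c = 0
  · exact Iso.of_zero (i := 2) hc
  refine (iso3_iff ha hb hc).2 (hasse_norm_adic (neg_ne_zero.2 (mul_ne_zero ha hc))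
    (neg_ne_zero.2 (mul_ne_zero ha hb)) (fun v => ?_) fun φ => nm3 φ ha hb hc (hre φ))
  have := adic_charZero v
  exact nm3 _ ha hb hc (hfin v)

theorem hm4_adic {a b c d : F}
    (hfin : ∀ v : Pr F, Iso ![algebraMap F (v.adicCompletion F) a,
      algebraMap F (v.adicCompletion F) b, algebraMap F (v.adicCompletion F) c,
      algebraMap F (v.adicCompletion F) d])
    (hre : ∀ φ : F →+* ℝ, Iso ![φ a, φ b, φ c, φ d]) : Iso ![a, b, c, d] := by
  by_cases ha : a = 0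
  · exact Iso.of_zero (i := 0) ha
  by_cases hb : b = 0
  · exact Iso.of_zero (i := 1) hb
  by_cases hc : c = 0
  · exact Iso.of_zero (i := 2) hc
  by_cases hd : d = 0
  · exact Iso.of_zero (i := 3) hd
  by_cases hs : IsSquare (a * b * c * d)
  · refine iso4_of_iso3 d (hm3_adic (fun v => ?_) fun φ => loc3 φ ha hb hc hd (hs.map φ) (hre φ))
    have := adic_charZero v
    exact loc3 _ ha hb hc hd (hs.map _) (hfin v)
  obtain ⟨M, _, _, _, Q, hQ⟩ := exists_quad_ext F _ hs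
  have hr := Q.r_sq
  rw [hQ] at hr
  have hM : IsSquare (algebraMap F M (a * b * c * d)) := ⟨Q.r, by rw [← hr, sq]⟩
  refine iso4_of_ext ha hb hc hd Q.r hr (fun α e => hs ⟨α, (algebraMap F M).injective ?_⟩)
    Q.exists_coords (hm3_adic (fun w => ?_) fun φ => ?_)
  · rw [map_mul _ α, e, ← hr, sq]
  · have := adic_charZero w
    have := adic_charZero (dn F w)
    obtain ⟨φ, hφ⟩ := exists_compl_hom (F := F) w
    have h1 := map4 φ (hfin (dn F w))
    rw [hφ, hφ, hφ, hφ] at h1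
    exact loc3 ((algebraMap M (w.adicCompletion M)).comp (algebraMap F M)) ha hb hc hd
      (hM.map (algebraMap M (w.adicCompletion M))) h1
  · exact loc3 (φ.comp (algebraMap F M)) ha hb hc hd (hM.map φ) (hre (φ.comp (algebraMap F M)))

theorem HMAux.five (hF : IsEmpty (F →+* ℝ)) {a b c d e : F} (ha : a ≠ 0) (hb : b ≠ 0) (hc : c ≠ 0)
    (hd : d ≠ 0) (he : e ≠ 0) : Iso ![a, b, c, d, e] := by
  have := fun v : Pr F => adic_charZero v
  choose L hL using fun v : Pr F => exists_adicLF v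
  have n0 : ∀ (v : Pr F) {x : F}, x ≠ 0 → algebraMap F (v.adicCompletion F) x ≠ 0 :=
    fun v _ h => (map_ne_zero _).2 h
  choose x₀ y₀ h0 h1 using fun v : Pr F =>
    iso5_split (n0 v ha) (n0 v hb) (n0 v hc) (n0 v hd) (n0 v he) ((L v).iso_five _)
  choose k hk using fun v : Pr F => near (L v) (h0 v)
  obtain ⟨T, hT⟩ : ∃ T : Finset (Pr F), ∀ v, v ∉ T → v.valuation F 2 = 1 ∧
      v.valuation F c = 1 ∧ v.valuation F d = 1 ∧ v.valuation F e = 1 :=
    ⟨(((fin_ne two_ne_zero).union (fin_ne hc)).union ((fin_ne hd).union (fin_ne he))).toFinset,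
      fun v hv => by simpa [and_assoc] using hv⟩
  obtain ⟨x, y, ht, h2⟩ : ∃ x y : F, a * x ^ 2 + b * y ^ 2 ≠ 0 ∧ ∀ v ∈ T,
      IsSquare ((algebraMap F _ a * x₀ v ^ 2 + algebraMap F _ b * y₀ v ^ 2) *
        algebraMap F (v.adicCompletion F) (a * x ^ 2 + b * y ^ 2)) := by
    rcases T.eq_empty_or_nonempty with rfl | ⟨v₀, hv₀⟩
    · exact ⟨1, 0, by simpa using ha, by simp⟩
    obtain ⟨m, hm⟩ := (T.finite_toSet.image k).bddBelow
    obtain ⟨x, hx, -⟩ := weak_approx T x₀ m (fun _ => 0) one_pos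
    obtain ⟨y, hy, -⟩ := weak_approx T y₀ m (fun _ => 0) one_pos
    have h3 := fun v (hv : v ∈ T) => hk v (algebraMap F _ x) (algebraMap F _ y)
      (by rw [hL]; exact (hx v hv).trans_le (WithZero.exp_le_exp.2 (hm ⟨v, hv, rfl⟩)))
      (by rw [hL]; exact (hy v hv).trans_le (WithZero.exp_le_exp.2 (hm ⟨v, hv, rfl⟩)))
    simp only [← map_pow, ← map_mul, ← map_add] at h3
    exact ⟨x, y, (map_ne_zero _).1 (h3 v₀ hv₀).1, fun v hv => (h3 v hv).2⟩
  obtain ⟨z, hz, h3⟩ : Iso ![a * x ^ 2 + b * y ^ 2, c, d, e] := by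
    refine hm4_adic (fun v => ?_) fun φ => hF.elim φ
    by_cases hv : v ∈ T
    · exact iso4_of_sq_mul (h0 v) (n0 v ht) (h2 v hv) (h1 v)
    · obtain ⟨a1, a2, a3, a4⟩ := hT v hv
      rw [← adic_v_algebraMap, ← hL] at a1 a2 a3 a4
      refine of_inj Fin.succ (Fin.succ_injective 3)
        ((iso3_iff (n0 v hc) (n0 v hd) (n0 v he)).2 ((L v).isNm_of_unit ?_ ?_ ?_))
      · rwa [map_ofNat] at a1
      · rw [Valuation.map_neg, map_mul, a2, a4, one_mul]
      · rw [Valuation.map_neg, map_mul, a2, a3, one_mul]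
  refine ⟨![x * z 0, y * z 0, z 1, z 2, z 3], fun h => hz ?_, ?_⟩
  · have b0 : x * z 0 = 0 := congrFun h 0
    have b1 : y * z 0 = 0 := congrFun h 1
    have b2 : z 0 = 0 := by
      by_contra h'
      rw [(mul_eq_zero.1 b0).resolve_right h', (mul_eq_zero.1 b1).resolve_right h'] at ht
      simp at ht
    funext i
    fin_cases i
    exacts [b2, congrFun h 2, congrFun h 3, congrFun h 4]
  · simp only [Fin.sum_univ_succ, cons_val_zero, cons_val_succ, Finset.univ_eq_empty,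
      Finset.sum_empty] at h3 ⊢
    exact Eq.trans (by simp; ring) h3

theorem hm5 (hF : IsEmpty (F →+* ℝ)) (a : Fin 5 → F) : Iso a := by
  by_cases h : ∃ i, a i = 0
  · exact Iso.of_zero h.choose_spec
  push Not at h
  have e : a = ![a 0, a 1, a 2, a 3, a 4] := by
    funext i
    fin_cases i <;> rfl
  rw [e]
  exact five hF (h 0) (h 1) (h 2) (h 3) (h 4)

theorem hm_norm {a b : F} (ha : a ≠ 0) (hb : b ≠ 0)
    (h : LocAll F fun _ _ ψ => IsNm (ψ a) (ψ b)) : IsNm a b := by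
  refine hasse_norm_adic ha hb (fun v => ?_) h.2
  obtain ⟨p, _, ⟨χ⟩⟩ := exists_padic_hom v
  exact h.1 p _ _ χ

theorem hm4 {a b c d : F} (h : LocAll F fun _ _ ψ => Iso ![ψ a, ψ b, ψ c, ψ d]) :
    Iso ![a, b, c, d] := by
  refine hm4_adic (fun v => ?_) h.2
  obtain ⟨p, _, ⟨χ⟩⟩ := exists_padic_hom v
  exact h.1 p _ _ χ

theorem hm4M {ι : Type} [Fintype ι] [DecidableEq ι] (hι : Fintype.card ι = 4) (A : Matrix ι ι F)
    (hA : Aᵀ = A) (h : LocAll F fun _ _ ψ => IsoM (A.map ψ)) : IsoM A := by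
  obtain ⟨P, d, hP, hd⟩ := exists_diag A hA
  obtain ⟨e⟩ : Nonempty (Fin 4 ≃ ι) := ⟨(Fintype.equivFinOfCardEq hι).symm⟩
  have key : ∀ (L : Type) [Field L] (ψ : F →+* L), IsoM (A.map ψ) →
      Iso ![ψ (d (e 0)), ψ (d (e 1)), ψ (d (e 2)), ψ (d (e 3))] := by
    intro L _ ψ h
    have h1 : (P.map ψ)ᵀ * A.map ψ * P.map ψ = diagonal fun i => ψ (d i) := by
      rw [← transpose_map, ← Matrix.map_mul, ← Matrix.map_mul, hd, diagonal_map (map_zero ψ)]
    refine of_inj e.symm e.symm.injective ?_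
    have h2 : (fun i => ![ψ (d (e 0)), ψ (d (e 1)), ψ (d (e 2)), ψ (d (e 3))] (e.symm i)) =
        fun i => ψ (d i) := by
      funext i
      obtain ⟨j, rfl⟩ := e.surjective i
      rw [e.symm_apply_apply]
      fin_cases j <;> rfl
    rw [h2]
    exact (isoM_iff (hP.map ψ.mapMatrix) h1).1 h
  refine (isoM_iff hP hd).2 (of_inj e e.injective ?_)
  have h2 : (fun i => d (e i)) = ![d (e 0), d (e 1), d (e 2), d (e 3)] := by
    funext i
    fin_cases i <;> rfl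
  rw [h2]
  exact hm4 ⟨fun p _ L _ ψ χ => key L ψ (h.1 p L ψ χ), fun ψ => key ℝ ψ (h.2 ψ)⟩

theorem hm5M (hF : IsEmpty (F →+* ℝ)) {ι : Type} [Fintype ι] [DecidableEq ι]
    (hι : 5 ≤ Fintype.card ι) (A : Matrix ι ι F) (hA : Aᵀ = A) : IsoM A := by
  obtain ⟨P, d, hP, hd⟩ := exists_diag A hA
  obtain ⟨f⟩ : Nonempty (Fin 5 ↪ ι) :=
    Function.Embedding.nonempty_of_card_le (by rwa [Fintype.card_fin])
  exact (isoM_iff hP hd).2 (of_inj f f.injective (hm5 hF _))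

end Pool.Agent.P.MP_3c2f8c_gt
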