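import Pool.Agent.P.MP_3c2f8c_gt.NT.HM

/-! NT-10: products of fields, finite algebras over the `p`-adic integers. -/

namespace Pool.Agent.P.MP_3c2f8c_gt

open Matrix

theorem isNm_of_quot {R : Type} [CommRing R] [IsReduced R] [IsArtinianRing R] {d b : R}
    (h : ∀ (L : Type) [Field L] (ψ : R →+* L), Function.Surjective ψ → IsNm (ψ d) (ψ b)) :
    IsNm d b := by
  have key : ∀ m : MaximalSpectrum R, ∃ x y : R ⧸ m.asIdeal,
      Ideal.Quotient.mk m.asIdeal b = x ^ 2 - Ideal.Quotient.mk m.asIdeal d * y ^ 2 := by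
    intro m
    have := m.isMaximal
    let : Field (R ⧸ m.asIdeal) := Ideal.Quotient.field m.asIdeal
    exact h (R ⧸ m.asIdeal) (Ideal.Quotient.mk m.asIdeal) Ideal.Quotient.mk_surjective
  choose x y hxy using key
  refine ⟨(IsArtinianRing.equivPi R).symm x, (IsArtinianRing.equivPi R).symm y, ?_⟩
  apply (IsArtinianRing.equivPi R).injective
  rw [map_sub, map_mul, map_pow, map_pow, AlgEquiv.apply_symm_apply, AlgEquiv.apply_symm_apply]
  funext m
  exact hxy m

theorem etale_norm {R : Type} [CommRing R] [Algebra ℚ R] [Module.Finite ℚ R] [IsReduced R]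
    {d b : R} (hd : IsUnit d) (hb : IsUnit b) (h : LocAll R fun _ _ ψ => IsNm (ψ d) (ψ b)) :
    IsNm d b := by
  have : IsArtinianRing R := IsArtinianRing.of_finite ℚ R
  refine isNm_of_quot fun L _ ψ hψ => ?_
  have : CharZero L :=
    (RingHom.charZero_iff (ψ.comp (algebraMap ℚ R)).injective).1 inferInstance
  have : Module.Finite ℚ L := Module.Finite.of_surjective ψ.toRatAlgHom.toLinearMap hψ
  have : NumberField L := {}
  refine hm_norm (hd.map ψ).ne_zero (hb.map ψ).ne_zero ⟨?_, ?_⟩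
  · intro p _ K _ φ e
    exact h.1 p K (φ.comp ψ) e
  · intro φ
    exact h.2 (φ.comp ψ)

namespace EtaleAux

open Polynomial IsLocalRing

theorem isNm_finite_field {L : Type} [Field L] [Finite L] (h2 : ringChar L ≠ 2) {d : L}
    (hd : d ≠ 0) (b : L) : IsNm d b := by
  have := Fintype.ofFinite L
  have hf : (X ^ 2 - C b : L[X]).degree = 2 := degree_X_pow_sub_C (by norm_num) b
  have hg : (C (-d) * X ^ 2 : L[X]).degree = 2 := degree_C_mul_X_pow 2 (neg_ne_zero.2 hd)
  obtain ⟨x, y, hxy⟩ := FiniteField.exists_root_sum_quadratic hf hg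
    (FiniteField.odd_card_of_char_ne_two h2)
  refine ⟨x, y, ?_⟩
  simp only [eval_sub, eval_pow, eval_X, eval_C, eval_mul] at hxy
  linear_combination -hxy

theorem precomplete_of_finite {A : Type} [CommRing A] (I : Ideal A) [IsPrecomplete I A]
    (M : Type) [AddCommGroup M] [Module A M] [Module.Finite A M] : IsPrecomplete I M := by
  rw [← AdicCompletion.of_surjective_iff]
  intro y
  obtain ⟨t, rfl⟩ := AdicCompletion.ofTensorProduct_surjective_of_finite I M y
  induction t using TensorProduct.induction_on with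
  | zero => exact ⟨0, by simp⟩
  | tmul r x =>
    obtain ⟨a, rfl⟩ := AdicCompletion.of_surjective I A r
    refine ⟨a • x, ?_⟩
    rw [AdicCompletion.ofTensorProduct_tmul, map_smul]
    exact (algebraMap_smul (AdicCompletion I A) a (AdicCompletion.of I M x)).symm
  | add s t hs ht =>
    obtain ⟨a, ha⟩ := hs
    obtain ⟨b, hb⟩ := ht
    exact ⟨a + b, by rw [map_add, map_add, ha, hb]⟩

theorem finite_of_p_eq_zero (p : ℕ) [Fact p.Prime] (S : Type) [CommRing S] [Algebra ℤ_[p] S]
    [Module.Finite ℤ_[p] S] (hS : (p : S) = 0) : Finite S := by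
  obtain ⟨n, f, hf⟩ := Module.Finite.exists_fin' ℤ_[p] S
  refine Finite.of_surjective (fun v : Fin n → ZMod p => f fun i => (ZMod.cast (v i) : ℤ_[p])) ?_
  intro s
  obtain ⟨w, rfl⟩ := hf s
  have key : ∀ i, ∃ c : ℤ_[p],
      w i - (ZMod.cast (PadicInt.toZMod (w i)) : ℤ_[p]) = (p : ℤ_[p]) * c := by
    intro i
    have := PadicInt.toZMod_spec (w i)
    rw [PadicInt.maximalIdeal_eq_span_p, Ideal.mem_span_singleton] at this
    exact this
  choose c hc using key
  refine ⟨fun i => PadicInt.toZMod (w i), ?_⟩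
  have e : w = (fun i => (ZMod.cast (PadicInt.toZMod (w i)) : ℤ_[p])) + (p : ℤ_[p]) • c := by
    funext i
    simp only [Pi.add_apply, Pi.smul_apply, smul_eq_mul]
    linear_combination hc i
  have e2 : f ((p : ℤ_[p]) • c) = 0 := by
    rw [map_smul, Algebra.smul_def, map_natCast, hS, zero_mul]
  have e3 := congrArg f e
  rw [map_add, e2, add_zero] at e3
  exact e3.symm

end EtaleAux

open Polynomial IsLocalRing EtaleAux in
theorem isNm_of_finite (p : ℕ) [Fact p.Prime] (hp : p ≠ 2) {R : Type} [CommRing R]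
    [Algebra ℤ_[p] R] [Module.Finite ℤ_[p] R] {d b : R} (hd : IsUnit d) (hb : IsUnit b) :
    IsNm d b := by
  have hpp : p.Prime := Fact.out
  set I : Ideal R := (maximalIdeal ℤ_[p]).map (algebraMap ℤ_[p] R) with hI
  have : IsHausdorff I R := IsHausdorff.map_algebraMap_iff.2 inferInstance
  have : IsPrecomplete I R :=
    IsPrecomplete.map_algebraMap_iff.2 (precomplete_of_finite (maximalIdeal ℤ_[p]) R)
  have : IsAdicComplete I R := {}
  have hH : HenselianRing R I := inferInstance
  have hpI : (p : R) ∈ I := by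
    have : (p : ℤ_[p]) ∈ maximalIdeal ℤ_[p] := by
      rw [PadicInt.maximalIdeal_eq_span_p]
      exact Ideal.mem_span_singleton_self _
    simpa using Ideal.mem_map_of_mem (algebraMap ℤ_[p] R) this
  set J : Ideal R := I.radical with hJ
  have hpJ : ((p : ℕ) : R ⧸ J) = 0 := by
    rw [← map_natCast (Ideal.Quotient.mk J), Ideal.Quotient.eq_zero_iff_mem]
    exact Ideal.le_radical hpI
  have : Finite (R ⧸ J) := finite_of_p_eq_zero p (R ⧸ J) hpJ
  have : IsReduced (R ⧸ J) := (Ideal.isRadical_iff_quotient_reduced J).1 (Ideal.radical_isRadical I)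
  have hq : IsNm (Ideal.Quotient.mk J d) (Ideal.Quotient.mk J b) := by
    refine isNm_of_quot fun L _ ψ hψ => ?_
    have : Finite L := Finite.of_surjective ψ hψ
    refine isNm_finite_field ?_ ((hd.map (Ideal.Quotient.mk J)).map ψ).ne_zero _
    intro h2
    have h0 : (p : L) = 0 := by rw [← map_natCast ψ, hpJ, map_zero]
    rw [ringChar.spec, h2] at h0
    exact hp ((Nat.prime_dvd_prime_iff_eq Nat.prime_two hpp).1 h0).symm
  obtain ⟨x, y, hxy⟩ := hq
  obtain ⟨x, rfl⟩ := Ideal.Quotient.mk_surjective x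
  obtain ⟨y, rfl⟩ := Ideal.Quotient.mk_surjective y
  obtain ⟨b', hb'⟩ := hb.exists_right_inv
  have hz : (x ^ 2 - d * y ^ 2) * b' - 1 ∈ J := by
    have h1 : b - (x ^ 2 - d * y ^ 2) ∈ J := by
      rw [← Ideal.Quotient.eq, hxy]
      simp
    have h2 : (x ^ 2 - d * y ^ 2) * b' - 1 = -b' * (b - (x ^ 2 - d * y ^ 2)) := by
      linear_combination hb'
    rw [h2]
    exact J.mul_mem_left _ h1
  obtain ⟨k, hk⟩ := hz
  set u : R := (x ^ 2 - d * y ^ 2) * b' with hu
  have hupow : u ^ p ^ k - 1 ∈ I := by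
    obtain ⟨r, hr⟩ := exists_add_pow_prime_pow_eq hpp (u - 1) 1 k
    rw [sub_add_cancel, one_pow] at hr
    have h3 : (u - 1) ^ p ^ k ∈ I :=
      Ideal.pow_mem_of_pow_mem I hk (Nat.lt_pow_self hpp.one_lt).le
    have h4 : u ^ p ^ k - 1 = (u - 1) ^ p ^ k + (p : R) * ((u - 1) * r) := by
      linear_combination hr
    rw [h4]
    exact I.add_mem h3 (I.mul_mem_right _ hpI)
  have huu : IsUnit u := by
    have h5 := Ideal.mem_jacobson_bot.1 (hH.jac hupow) 1
    rw [mul_one, sub_add_cancel] at h5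
    exact (isUnit_pow_iff (pow_ne_zero k hpp.ne_zero)).1 h5
  obtain ⟨m, hm⟩ : Odd (p ^ k) := (hpp.odd_of_ne_two hp).pow
  have h2u : IsUnit (2 : R) := by
    have h6 : IsUnit (2 : ℤ_[p]) := by
      rw [PadicInt.isUnit_iff]
      have := (PadicInt.norm_natCast_eq_one_iff (p := p) (n := 2)).2
        ((Nat.coprime_primes hpp Nat.prime_two).2 hp)
      simpa using this
    simpa [map_ofNat] using h6.map (algebraMap ℤ_[p] R)
  obtain ⟨t, ht, -⟩ := hH.is_henselian (X ^ 2 - C u) (monic_X_pow_sub_C u two_ne_zero)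
    (u ^ (m + 1)) (by
      have h7 : eval (u ^ (m + 1)) (X ^ 2 - C u) = u * (u ^ p ^ k - 1) := by
        rw [hm]
        simp only [eval_sub, eval_pow, eval_X, eval_C]
        ring
      rw [h7]
      exact I.mul_mem_left _ hupow) (by
      refine IsUnit.map _ ?_
      have h8 : eval (u ^ (m + 1)) (derivative (X ^ 2 - C u)) = 2 * u ^ (m + 1) := by
        simp [one_add_one_eq_two]
      rw [h8]
      exact h2u.mul (huu.pow _))
  have ht2 : t ^ 2 = u := by
    have := ht.eq_zero
    simp only [eval_sub, eval_pow, eval_X, eval_C] at this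
    linear_combination this
  have htu : IsUnit t := (isUnit_pow_iff two_ne_zero).1 (ht2 ▸ huu)
  obtain ⟨s, hs⟩ := htu.exists_right_inv
  refine ⟨x * s, y * s, ?_⟩
  have h9 : x ^ 2 - d * y ^ 2 = t ^ 2 * b := by
    rw [ht2, hu]
    linear_combination (-(x ^ 2 - d * y ^ 2)) * hb'
  linear_combination (-(s ^ 2)) * h9 - b * (t * s + 1) * hs

end Pool.Agent.P.MP_3c2f8c_gt
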