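import Pool.Agent.P.MP_3c2f8c_gt.NT.Local1
import Pool.Agent.P.MP_9ec3f0_nt.SY.Ext

/-! NT-4: completions. -/

namespace Pool.Agent.P.MP_3c2f8c_gt

open Matrix NumberField IsDedekindDomain
open Pool.Agent.P.MP_9ec3f0_nt.SY

variable {F : Type} [Field F] [NumberField F]

theorem ComplAux.hensel {E : Type} [NormedField E] [IsUltrametricDist E] [CompleteSpace E] {μ : E}
    (h : ‖μ‖ < 1) : ∃ x : E, x ^ 2 + x = μ := by
  have hs : Set.MapsTo (fun x : E => μ - x ^ 2) (Metric.closedBall 0 ‖μ‖)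
      (Metric.closedBall 0 ‖μ‖) := by
    intro x hx
    rw [mem_closedBall_zero_iff] at hx ⊢
    beta_reduce
    rw [sub_eq_add_neg]
    refine (IsUltrametricDist.norm_add_le_max _ _).trans (max_le le_rfl ?_)
    rw [norm_neg, norm_pow]
    nlinarith [norm_nonneg x, norm_nonneg μ]
  have hc : ContractingWith ‖μ‖₊ (hs.restrict _ _ _) := by
    refine ⟨h, LipschitzWith.of_dist_le_mul fun x y => ?_⟩
    have hx := mem_closedBall_zero_iff.1 x.2
    have hy := mem_closedBall_zero_iff.1 y.2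
    change dist (μ - x.1 ^ 2) (μ - y.1 ^ 2) ≤ ‖μ‖ * dist x.1 y.1
    rw [dist_eq_norm, dist_eq_norm,
      show μ - x.1 ^ 2 - (μ - y.1 ^ 2) = -((x.1 + y.1) * (x.1 - y.1)) by ring, norm_neg, norm_mul]
    exact mul_le_mul_of_nonneg_right
      ((IsUltrametricDist.norm_add_le_max _ _).trans (max_le hx hy)) (norm_nonneg _)
  obtain ⟨y, -, hy, -⟩ := hc.exists_fixedPoint' Metric.isClosed_closedBall.isComplete hs
    (Metric.mem_closedBall_self (norm_nonneg μ)) (edist_ne_top _ _)
  have h1 : μ - y ^ 2 = y := hy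
  exact ⟨y, by linear_combination -h1⟩

theorem ComplAux.padic_le (p : ℕ) [Fact p.Prime] (x : ℚ_[p]) :
    Padic.mulValuation x ≤ 1 ↔ ‖x‖ ≤ 1 := by
  rcases eq_or_ne x 0 with rfl | hx
  · simp
  · rw [Padic.norm_eq_zpow_log_mulValuation hx,
      zpow_le_one_iff_right₀ (by exact_mod_cast (Fact.out : p.Prime).one_lt),
      ← WithZero.log_le_log ((Valuation.ne_zero_iff _).2 hx) one_ne_zero, WithZero.log_one]

theorem ComplAux.padic_lt (p : ℕ) [Fact p.Prime] (x : ℚ_[p]) :
    Padic.mulValuation x < 1 ↔ ‖x‖ < 1 := by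
  rcases eq_or_ne x 0 with rfl | hx
  · simp
  · rw [Padic.norm_eq_zpow_log_mulValuation hx,
      zpow_lt_one_iff_right₀ (by exact_mod_cast (Fact.out : p.Prime).one_lt),
      ← WithZero.log_lt_log ((Valuation.ne_zero_iff _).2 hx) one_ne_zero, WithZero.log_one]

theorem exists_padicLF (p : ℕ) [Fact p.Prime] : ∃ L : LF ℚ_[p],
    (∀ x, L.v x ≤ 1 ↔ ‖x‖ ≤ 1) ∧ (∀ x, L.v x < 1 ↔ ‖x‖ < 1) ∧ (∀ x, L.v x = 1 ↔ ‖x‖ = 1) ∧
    L.v p = WithZero.exp (-1) := by
  have hp : Padic.mulValuation (p : ℚ_[p]) = WithZero.exp (-1) := by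
    simp [(Fact.out : p.Prime).ne_zero]
  classical
  refine ⟨⟨Padic.mulValuation, p, hp, fun μ hμ => ComplAux.hensel ((ComplAux.padic_lt p μ).1 hμ),
    (Finset.range p).image Nat.cast, fun r hr => ?_, fun x hx => ?_⟩, ComplAux.padic_le p,
    ComplAux.padic_lt p, fun x => ?_, hp⟩
  · obtain ⟨n, -, rfl⟩ := Finset.mem_image.1 hr
    exact (ComplAux.padic_le p _).2 (IsUltrametricDist.norm_natCast_le_one _ n)
  · let z : ℤ_[p] := ⟨x, (ComplAux.padic_le p x).1 hx⟩
    refine ⟨(z.zmodRepr : ℚ_[p]), Finset.mem_image_of_mem _ (Finset.mem_range.2 z.zmodRepr_lt_p),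
      (ComplAux.padic_lt p _).2 ?_⟩
    have h1 := z.sub_zmodRepr_mem
    rw [IsLocalRing.mem_maximalIdeal, PadicInt.mem_nonunits] at h1
    exact h1
  · change Padic.mulValuation x = 1 ↔ _
    rw [le_antisymm_iff, le_antisymm_iff, ← not_lt (a := Padic.mulValuation x),
      ← not_lt (a := ‖x‖), ComplAux.padic_le, ComplAux.padic_lt]

theorem adic_charZero (v : Pr F) : CharZero (v.adicCompletion F) :=
  charZero_of_injective_algebraMap (algebraMap F (v.adicCompletion F)).injective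

theorem adic_v_algebraMap (v : Pr F) (x : F) :
    Valued.v (algebraMap F (v.adicCompletion F) x) = v.valuation F x :=
  HeightOneSpectrum.valuedAdicCompletion_eq_valuation' v x

theorem exists_close (v : Pr F) (y : v.adicCompletion F) (k : ℤ) :
    ∃ x : F, Valued.v (algebraMap F (v.adicCompletion F) x - y) < WithZero.exp k := by
  obtain ⟨z, hz⟩ := v.valuedAdicCompletion_surjective F (WithZero.exp k)
  have hz0 : z ≠ 0 := by
    rintro rfl
    rw [map_zero] at hz
    exact WithZero.exp_ne_zero hz.symm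
  obtain ⟨x, hx⟩ := (v.denseRange_algebraMap F).exists_dist_lt y (norm_pos_iff.2 hz0)
  rw [dist_comm, dist_eq_norm, Valued.toNormedField.norm_lt_iff, hz] at hx
  exact ⟨x, hx⟩

theorem exists_adicLF (v : Pr F) : ∃ L : LF (v.adicCompletion F), L.v = Valued.v := by
  obtain ⟨π, hπ⟩ := v.valuedAdicCompletion_surjective F (WithZero.exp (-1))
  have hfin : Finite (𝓞 F ⧸ v.asIdeal) := Ideal.finiteQuotientOfFreeOfNeBot _ v.ne_bot
  have := Fintype.ofFinite (𝓞 F ⧸ v.asIdeal)
  classical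
  refine ⟨⟨Valued.v, π, hπ,
    fun μ hμ => ComplAux.hensel (Valued.toNormedField.norm_lt_one_iff.2 hμ),
    Finset.univ.image fun c : 𝓞 F ⧸ v.asIdeal => algebraMap F _ (algebraMap (𝓞 F) F c.out),
    fun r hr => ?_, fun x hx => ?_⟩, rfl⟩
  · obtain ⟨c, -, rfl⟩ := Finset.mem_image.1 hr
    rw [adic_v_algebraMap]
    exact v.valuation_le_one _
  · obtain ⟨a, ha⟩ := exists_close v x 0
    rw [WithZero.exp_zero] at ha
    have ha1 : v.valuation F a ≤ 1 := by
      rw [← adic_v_algebraMap, ← sub_add_cancel (algebraMap F _ a) x]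
      exact Valuation.map_add_le _ ha.le hx
    obtain ⟨b, hb⟩ := v.exists_valuation_sub_lt_of_integer ha1 1
    refine ⟨_, Finset.mem_image_of_mem _ (Finset.mem_univ (Ideal.Quotient.mk v.asIdeal b)), ?_⟩
    set c := (Ideal.Quotient.mk v.asIdeal b).out with hc
    have h1 : b - c ∈ v.asIdeal := Ideal.Quotient.eq.1 (Ideal.Quotient.mk_out _).symm
    have h2 : v.valuation F (algebraMap (𝓞 F) F (b - c)) < 1 := (v.valuation_lt_one_iff_mem _).2 h1
    rw [Units.val_one, ← adic_v_algebraMap, map_sub] at hb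
    rw [← adic_v_algebraMap, map_sub, map_sub] at h2
    rw [show ∀ A B C : v.adicCompletion F, x - C = (B - C) - (B - A) - (A - x) from
      fun A B C => by ring]
    exact Valuation.map_sub_lt _ (Valuation.map_sub_lt _ h2 hb) ha

theorem splitAt_iff (v : Pr F) {x : F} (hx : x ≠ 0) :
    SplitAt v x ↔ IsSquare (algebraMap F (v.adicCompletion F) x) := by
  constructor
  · rintro ⟨ξ, μ, -, rfl, hμ⟩
    rw [← adic_v_algebraMap] at hμ
    obtain ⟨t, ht⟩ := ComplAux.hensel (Valued.toNormedField.norm_lt_one_iff.2 hμ)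
    refine ⟨algebraMap F _ ξ * (1 + 2 * t), ?_⟩
    rw [map_mul, map_pow, map_add, map_one, map_mul, map_ofNat, ← ht]
    ring
  · rintro ⟨y, hy⟩
    have hy0 : y ≠ 0 := by
      rintro rfl
      rw [mul_zero, map_eq_zero] at hy
      exact hx hy
    have hy1 : Valued.v y ≠ 0 := (Valuation.ne_zero_iff _).2 hy0
    have h4 : v.valuation F 4 ≠ 0 := ValAux.val_ne v (by norm_num)
    obtain ⟨ξ, hξ⟩ := exists_close v y (WithZero.log (v.valuation F 4 * Valued.v y))
    rw [WithZero.exp_log (mul_ne_zero h4 hy1)] at hξ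
    have h1 : Valued.v (algebraMap F (v.adicCompletion F) ξ - y) < Valued.v y :=
      hξ.trans_le (mul_le_of_le_one_left' (ValAux.val_four_le v))
    have h2 : Valued.v (algebraMap F (v.adicCompletion F) ξ) = Valued.v y :=
      Valuation.map_eq_of_sub_lt _ h1
    have hξ0 : ξ ≠ 0 := by
      rintro rfl
      rw [map_zero, map_zero] at h2
      exact hy1 h2.symm
    refine ⟨ξ, (x - ξ ^ 2) / (4 * ξ ^ 2), hξ0, by field_simp; ring, ?_⟩
    have h3 : v.valuation F ξ = Valued.v y := by rw [← adic_v_algebraMap, h2]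
    rw [map_div₀, map_mul, map_pow, h3,
      div_lt_one₀ (zero_lt_iff.2 (mul_ne_zero h4 (pow_ne_zero 2 hy1))), ← adic_v_algebraMap,
      map_sub, map_pow, hy, show ∀ A : v.adicCompletion F, y * y - A ^ 2 = -((A - y) * (A + y))
        from fun A => by ring, Valuation.map_neg, map_mul, sq, ← mul_assoc]
    exact mul_lt_mul_of_lt_of_le_of_nonneg_of_pos hξ (Valuation.map_add_le _ h2.le le_rfl) zero_le
      (zero_lt_iff.2 hy1)

theorem exists_compl_hom {M : Type} [Field M] [NumberField M] [Algebra F M] (w : Pr M) :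
    ∃ φ : (dn F w).adicCompletion F →+* w.adicCompletion M, ∀ x : F,
      φ (algebraMap F _ x) = algebraMap M _ (algebraMap F M x) := by
  have := ExtAux.liesOver (F := F) w
  have hc := (HeightOneSpectrum.uniformContinuous_algebraMap_liesOver F M (dn F w) w).continuous
  refine ⟨(HeightOneSpectrum.adicCompletion.equiv M w).symm.toRingHom.comp
    ((UniformSpace.Completion.mapRingHom _ hc).comp
      (HeightOneSpectrum.adicCompletion.equiv F (dn F w)).toRingHom), fun x => ?_⟩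
  exact congrArg (HeightOneSpectrum.adicCompletion.equiv M w).symm
    (UniformSpace.Completion.mapRingHom_coe hc (WithVal.toVal _ x))

theorem exists_padic_hom (v : Pr F) :
    ∃ (p : ℕ) (_ : Fact p.Prime), Nonempty (ℚ_[p] →+* v.adicCompletion F) := by
  obtain ⟨φ, -⟩ := exists_compl_hom (F := ℚ) v
  exact ⟨_, ⟨(Rat.HeightOneSpectrum.primesEquiv (dn ℚ v)).2⟩,
    ⟨φ.comp (Rat.HeightOneSpectrum.adicCompletion.padicEquiv (dn ℚ v)).symm.toRingEquiv.toRingHom⟩⟩

end Pool.Agent.P.MP_3c2f8c_gt
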