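import Pool.Agent.P.MP_3c2f8c_gt.NT.Local1

/-! NT-3: local fields, isotropy and the norm index. -/

namespace Pool.Agent.P.MP_3c2f8c_gt

open Matrix

variable {E : Type} [Field E] [CharZero E]

namespace Local2Aux

open WithZero

/-- The properties of the unit of the unramified quadratic extension. -/
structure IsDel (L : LF E) (Δ : E) : Prop where
  unit : L.v Δ = 1
  le : L.v (Δ - 1) ≤ L.v 4
  nsq : ¬ IsSquare Δ
  nm : ∀ u, L.v u = 1 → IsNm Δ u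
  ev : ∀ b, b ≠ 0 → IsNm Δ b → ∃ k : ℤ, L.v b = exp (2 * k)
  tri : ∀ u, L.v u = 1 → IsSquare u ∨ IsSquare (u * Δ) ∨ ∃ (c : E) (k : ℤ), Odd k ∧ 0 < k ∧
    L.v (u * c ^ 2 - 1) = exp (-k) ∧ L.v 4 < exp (-k)

theorem exists_del (L : LF E) : ∃ Δ, IsDel L Δ := by
  obtain ⟨Δ, h1, h2, h3, h4, h5, h6⟩ := L.exists_delta
  exact ⟨Δ, h1, h2, h3, h4, h5, h6⟩

variable {L : LF E} {Δ : E}

theorem ne_of_v {x : E} {n : ℤ} (h : L.v x = exp n) : x ≠ 0 := by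
  rintro rfl
  rw [map_zero] at h
  exact exp_ne_zero h.symm

theorem ne_of_unit {x : E} (h : L.v x = 1) : x ≠ 0 := ne_of_v (n := 0) h

theorem exists_v (L : LF E) {x : E} (h : x ≠ 0) : ∃ n : ℤ, L.v x = exp n :=
  ⟨log (L.v x), (exp_log ((map_ne_zero L.v).2 h)).symm⟩

theorem parity (L : LF E) {x : E} (h : x ≠ 0) :
    (∃ n : ℤ, L.v x = exp (2 * n)) ∨ ∃ n : ℤ, L.v x = exp (2 * n + 1) := by
  obtain ⟨n, hn⟩ := exists_v L h
  obtain ⟨m, rfl | rfl⟩ := Int.even_or_odd' n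
  exacts [Or.inl ⟨m, hn⟩, Or.inr ⟨m, hn⟩]

theorem v_mul {x y : E} {m n : ℤ} (hx : L.v x = exp m) (hy : L.v y = exp n) :
    L.v (x * y) = exp (m + n) := by rw [map_mul, hx, hy, exp_add]

theorem v_sq {x : E} {m : ℤ} (hx : L.v x = exp m) : L.v (x ^ 2) = exp (2 * m) := by
  rw [sq, v_mul hx hx, two_mul]

theorem v_zpow (L : LF E) (n : ℤ) : L.v (L.π ^ n) = exp (-n) := by
  rw [map_zpow₀, L.v_π, ← WithZero.exp_zsmul]
  simp

theorem unit_of_even {x : E} {n : ℤ} (h : L.v x = exp (2 * n)) :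
    L.v (x * (L.π ^ n) ^ 2) = 1 := by
  rw [v_mul h (v_sq (v_zpow L n)), ← exp_zero]
  congr 1
  ring

theorem not_sq_of_odd {x : E} {n : ℤ} (h : L.v x = exp (2 * n + 1)) : ¬ IsSquare x := by
  rintro ⟨r, rfl⟩
  obtain ⟨m, hm⟩ := exists_v L (left_ne_zero_of_mul (ne_of_v h))
  rw [v_mul hm hm, exp_inj] at h
  omega

theorem IsDel.ne (hΔ : IsDel L Δ) : Δ ≠ 0 := ne_of_unit hΔ.unit

theorem IsDel.of_even (hΔ : IsDel L Δ) {x : E} {n : ℤ} (h : L.v x = exp (2 * n)) : IsNm Δ x :=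
  (isNm_mul_sq (ne_of_v (v_zpow L n))).1 (hΔ.nm _ (unit_of_even h))

theorem IsDel.not_odd (hΔ : IsDel L Δ) {x : E} {n : ℤ} (h : L.v x = exp (2 * n + 1)) :
    ¬ IsNm Δ x := by
  intro hx
  obtain ⟨k, hk⟩ := hΔ.ev x (ne_of_v h) hx
  rw [h, exp_inj] at hk
  omega

theorem isNm_sq' (a : E) {b : E} (h : IsSquare b) : IsNm a b := by
  obtain ⟨r, rfl⟩ := h
  exact ⟨r, 0, by ring⟩

theorem unit_of_lt {x : E} (h : L.v (x - 1) < 1) : L.v x = 1 := by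
  have := L.v.map_one_add_of_lt h
  rwa [add_sub_cancel] at this

theorem unit_of_sq {u c : E} (hu : L.v u = 1) (h : L.v (u * c ^ 2) = 1) : L.v c = 1 := by
  rw [map_mul, hu, one_mul, map_pow] at h
  exact (pow_eq_one_iff_left two_ne_zero).1 h

/-- An odd order below the order of `4` is the largest possible. -/
theorem defect {w c : E} {k : ℤ} (hk : Odd k) (hk0 : 0 < k) (hw : L.v w = 1)
    (h : L.v (w * c ^ 2 - 1) = exp (-k)) (h4 : L.v 4 < exp (-k)) : exp (-k) ≤ L.v (w - 1) := by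
  by_contra hlt
  push Not at hlt
  have h1 : exp (-k) < 1 := by rw [← exp_zero, exp_lt_exp]; omega
  have hc : L.v c = 1 := unit_of_sq hw (unit_of_lt (h ▸ h1))
  have h2 : L.v ((c - 1) * (c + 1)) = exp (-k) := by
    have e : (c - 1) * (c + 1) = (w * c ^ 2 - 1) - (w - 1) * c ^ 2 := by ring
    rw [e, L.v.map_sub_eq_of_lt_left, h]
    rwa [h, map_mul, map_pow, hc, one_pow, mul_one]
  by_cases h3 : L.v 2 < L.v (c - 1)
  · have e : c + 1 = (c - 1) + 2 := by ring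
    have h5 : L.v (c + 1) = L.v (c - 1) := by rw [e, L.v.map_add_eq_of_lt_left h3]
    obtain ⟨m, hm⟩ := exists_v L (left_ne_zero_of_mul (ne_of_v h2))
    rw [v_mul hm (h5.trans hm), exp_inj] at h2
    obtain ⟨j, hj⟩ := hk
    omega
  · push Not at h3
    have e : c + 1 = (c - 1) + 2 := by ring
    have h5 : L.v (c + 1) ≤ L.v 2 := by rw [e]; exact L.v.map_add_le h3 le_rfl
    have h6 : L.v ((c - 1) * (c + 1)) ≤ L.v 4 := by
      rw [map_mul, show (4 : E) = 2 * 2 by norm_num, map_mul]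
      exact mul_le_mul' h3 h5
    rw [h2] at h6
    exact absurd h4 (not_lt.2 h6)

theorem IsDel.sq_mod (hΔ : IsDel L Δ) (h4 : L.v 4 < 1) {η : E} (hη : L.v η = 1) :
    ∃ s, L.v (η - s ^ 2) < 1 := by
  rcases hΔ.tri η hη with ⟨s, hs⟩ | ⟨s, hs⟩ | ⟨c, k, -, hk0, hc, -⟩
  · exact ⟨s, by rw [hs, sq, sub_self, map_zero]; exact zero_lt_one⟩
  · refine ⟨s, ?_⟩
    have e : η - s ^ 2 = -(η * (Δ - 1)) := by rw [sq, ← hs]; ring
    rw [e, Valuation.map_neg, map_mul, hη, one_mul]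
    exact hΔ.le.trans_lt h4
  · have h1 : exp (-k) < 1 := by rw [← exp_zero, exp_lt_exp]; omega
    have hc1 : L.v c = 1 := unit_of_sq hη (unit_of_lt (hc ▸ h1))
    have hc0 := ne_of_unit hc1
    refine ⟨c⁻¹, ?_⟩
    have e : η - c⁻¹ ^ 2 = (η * c ^ 2 - 1) * c⁻¹ ^ 2 := by field_simp
    rwa [e, map_mul, map_pow, map_inv₀, hc1, inv_one, one_pow, mul_one, hc]

theorem IsDel.unit_step (hΔ : IsDel L Δ) {b : E} {n : ℤ} (hb : L.v b = exp (2 * n + 1))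
    {m : ℤ} (hm : L.v 4 = exp (-m)) (j : ℕ) :
    ∀ w, L.v w = 1 → L.v (w - 1) ≤ exp (j - m) → IsNm b w ∨ IsNm b (w * Δ) := by
  induction j with
  | zero =>
    intro w hw h
    rcases hΔ.tri w hw with h1 | h1 | ⟨c, k, hk, hk0, hc, h4⟩
    · exact Or.inl (isNm_sq' b h1)
    · exact Or.inr (isNm_sq' b h1)
    · have h2 := (defect hk hk0 hw hc h4).trans h
      rw [hm, exp_lt_exp] at h4
      rw [exp_le_exp] at h2
      omega
  | succ j ih =>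
    intro w hw h
    rcases hΔ.tri w hw with h1 | h1 | ⟨c, k, hk, hk0, hc, h4⟩
    · exact Or.inl (isNm_sq' b h1)
    · exact Or.inr (isNm_sq' b h1)
    have h2 := (defect hk hk0 hw hc h4).trans h
    rw [exp_le_exp] at h2
    have h1 : exp (-k) < 1 := by rw [← exp_zero, exp_lt_exp]; omega
    have hc0 : c ≠ 0 := ne_of_unit (unit_of_sq hw (unit_of_lt (hc ▸ h1)))
    have hb0 := ne_of_v hb
    obtain ⟨i, hi⟩ := hk
    have hb' : L.v b⁻¹ = exp (-(2 * n + 1)) := by rw [map_inv₀, hb, WithZero.exp_neg]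
    have h3 : L.v ((w * c ^ 2 - 1) * b⁻¹) = exp (2 * (-i - n - 1)) := by
      rw [v_mul hc hb']
      congr 1
      omega
    obtain ⟨s, hs⟩ := hΔ.sq_mod (h4.trans h1) (unit_of_even h3)
    have hp := v_zpow L (-i - n - 1)
    have hp0 := ne_of_v hp
    generalize L.π ^ (-i - n - 1) = q at hs hp hp0
    have hq : L.v (b * q⁻¹ ^ 2) = exp (-k) := by
      have : L.v q⁻¹ = exp (-i - n - 1) := by rw [map_inv₀, hp, ← WithZero.exp_neg, neg_neg]
      rw [v_mul hb (v_sq this)]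
      congr 1
      omega
    have h5 : L.v ((w * c ^ 2 - 1) - b * (s / q) ^ 2) < exp (-k) := by
      have e : (w * c ^ 2 - 1) - b * (s / q) ^ 2 =
          b * q⁻¹ ^ 2 * ((w * c ^ 2 - 1) * b⁻¹ * q ^ 2 - s ^ 2) := by field_simp
      rw [e, map_mul, hq]
      exact mul_lt_of_lt_one_right exp_pos hs
    generalize s / q = y at h5
    have h6 : L.v (b * y ^ 2) < 1 := by
      have e : b * y ^ 2 = (w * c ^ 2 - 1) - ((w * c ^ 2 - 1) - b * y ^ 2) := by ring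
      rw [e]
      exact L.v.map_sub_lt (hc ▸ h1) (h5.trans h1)
    have h7 : L.v (w * c ^ 2 * (1 - b * y ^ 2) - 1) < exp (-k) := by
      have e : w * c ^ 2 * (1 - b * y ^ 2) - 1 =
          ((w * c ^ 2 - 1) - b * y ^ 2) - (w * c ^ 2 - 1) * (b * y ^ 2) := by ring
      rw [e]
      refine L.v.map_sub_lt h5 ?_
      rw [map_mul, hc]
      exact mul_lt_of_lt_one_right exp_pos h6
    have h8 := unit_of_lt (h7.trans h1)
    have h9 : L.v (w * c ^ 2 * (1 - b * y ^ 2) - 1) ≤ exp (j - m) := by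
      by_cases h0 : w * c ^ 2 * (1 - b * y ^ 2) - 1 = 0
      · rw [h0, map_zero]; exact zero_le
      · obtain ⟨r, hr⟩ := exists_v L h0
        rw [hr, exp_lt_exp] at h7
        rw [hr, exp_le_exp]
        omega
    have hn0 : c ^ 2 * (1 - b * y ^ 2) ≠ 0 := by
      have := ne_of_unit h8
      rw [mul_assoc] at this
      exact right_ne_zero_of_mul this
    have hn : IsNm b (c ^ 2 * (1 - b * y ^ 2)) := ⟨c, c * y, by ring⟩
    rcases ih _ h8 h9 with h10 | h10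
    · exact Or.inl (IsNm.of_mul hn0 hn (by rwa [mul_comm, ← mul_assoc]))
    · refine Or.inr (IsNm.of_mul hn0 hn ?_)
      have e : c ^ 2 * (1 - b * y ^ 2) * (w * Δ) = w * c ^ 2 * (1 - b * y ^ 2) * Δ := by ring
      rwa [e]

theorem v_four (L : LF E) : ∃ m : ℕ, L.v 4 = exp (-(m : ℤ)) := by
  obtain ⟨n, hn⟩ := exists_v L (show (4 : E) ≠ 0 by norm_num)
  have h1 : L.v 4 ≤ 1 := by
    have e : (4 : E) = 1 + 1 + (1 + 1) := by norm_num
    have h2 : L.v (1 + 1) ≤ 1 := L.v.map_add_le (map_one _).le (map_one _).le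
    rw [e]
    exact L.v.map_add_le h2 h2
  rw [hn, ← exp_zero, exp_le_exp] at h1
  exact ⟨(-n).toNat, by rw [hn]; congr 1; omega⟩

/-- For `b` of odd order, `1` and `Δ` represent the classes modulo norms. -/
theorem IsDel.odd_slot (hΔ : IsDel L Δ) {b : E} {n : ℤ} (hb : L.v b = exp (2 * n + 1)) {a : E}
    (ha : a ≠ 0) : IsNm b a ∨ IsNm b (a * Δ) := by
  have hu : ∀ w, L.v w = 1 → IsNm b w ∨ IsNm b (w * Δ) := by
    intro w hw
    obtain ⟨m, hm⟩ := v_four L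
    refine hΔ.unit_step hb hm m w hw ?_
    rw [sub_self, exp_zero]
    exact L.v.map_sub_le hw.le (map_one _).le
  have he : ∀ (x : E) (k : ℤ), L.v x = exp (2 * k) → IsNm b x ∨ IsNm b (x * Δ) := by
    intro x k hx
    have hp := ne_of_v (v_zpow L k)
    rcases hu _ (unit_of_even hx) with h | h
    · exact Or.inl ((isNm_mul_sq hp).1 h)
    · exact Or.inr ((isNm_mul_sq hp).1 (by rwa [mul_right_comm]))
  rcases parity L ha with ⟨k, hk⟩ | ⟨k, hk⟩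
  · exact he a k hk
  · have hb0 : -b ≠ 0 := neg_ne_zero.2 (ne_of_v hb)
    have hn : IsNm b (-b) := ⟨0, 1, by ring⟩
    have h1 : L.v (-b * a) = exp (2 * (n + k + 1)) := by
      rw [v_mul ((L.v.map_neg b).trans hb) hk]
      congr 1
      ring
    rcases he _ _ h1 with h | h
    · exact Or.inl (IsNm.of_mul hb0 hn h)
    · exact Or.inr (IsNm.of_mul hb0 hn (by rwa [← mul_assoc]))

theorem isNm_zero (a : E) : IsNm a 0 := ⟨0, 0, by ring⟩

theorem ne_of_not {a b : E} (h : ¬ IsNm a b) : b ≠ 0 := by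
  rintro rfl
  exact h (isNm_zero a)

theorem IsDel.mul_odd (hΔ : IsDel L Δ) {a b c : E} (ha : a ≠ 0) {m n : ℤ}
    (hb : L.v b = exp (2 * m + 1)) (hc : L.v c = exp (2 * n + 1)) (hb' : ¬ IsNm a b)
    (hc' : ¬ IsNm a c) : IsNm a (b * c) := by
  have hb0 := ne_of_v hb
  have hc0 := ne_of_v hc
  have haΔ := mul_ne_zero ha hΔ.ne
  have hbc := mul_ne_zero hb0 hc0
  have h1 : IsNm (a * Δ) b :=
    ((hΔ.odd_slot hb ha).resolve_left fun h => hb' (h.comm hb0 ha)).comm hb0 haΔ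
  have h2 : IsNm (a * Δ) c :=
    ((hΔ.odd_slot hc ha).resolve_left fun h => hc' (h.comm hc0 ha)).comm hc0 haΔ
  have h3 : IsNm Δ (b * c) := hΔ.of_even (n := m + n + 1) (by rw [v_mul hb hc]; congr 1; ring)
  have h4 := (h1.mul h2).comm haΔ hbc
  rw [mul_comm a Δ] at h4
  exact (IsNm.of_mul hΔ.ne (h3.comm hΔ.ne hbc) h4).comm hbc ha

theorem IsDel.mul_of_odd_nm (hΔ : IsDel L Δ) {a b c z : E} (ha : a ≠ 0) {r : ℤ}
    (hz : L.v z = exp (2 * r + 1)) (hz' : IsNm a z) (hb : ¬ IsNm a b) (hc : ¬ IsNm a c) :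
    IsNm a (b * c) := by
  have hz0 := ne_of_v hz
  have key : ∀ x, ¬ IsNm a x → ∃ y : E, y ≠ 0 ∧ IsNm a y ∧ ¬ IsNm a (y * x) ∧
      ∃ k : ℤ, L.v (y * x) = exp (2 * k + 1) := by
    intro x hx
    rcases parity L (ne_of_not hx) with ⟨k, hk⟩ | ⟨k, hk⟩
    · exact ⟨z, hz0, hz', fun h => hx (IsNm.of_mul hz0 hz' h), r + k,
        by rw [v_mul hz hk]; congr 1; ring⟩
    · exact ⟨1, one_ne_zero, ⟨1, 0, by ring⟩, by rwa [one_mul], k, by rwa [one_mul]⟩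
  obtain ⟨y, hy0, hy, hyb, m, hm⟩ := key b hb
  obtain ⟨y', hy0', hy', hyc, n, hn⟩ := key c hc
  refine IsNm.of_mul (mul_ne_zero hy0 hy0') (hy.mul hy') ?_
  have e : y * y' * (b * c) = y * b * (y' * c) := by ring
  rw [e]
  exact hΔ.mul_odd ha hm hn hyb hyc

theorem IsDel.nm_iff (hΔ : IsDel L Δ) {u : E} (hu : u ≠ 0) (h : IsSquare (u * Δ)) (b : E) :
    IsNm u b ↔ IsNm Δ b := by
  obtain ⟨s, hs⟩ := h
  have hs0 : s ≠ 0 := left_ne_zero_of_mul (hs ▸ mul_ne_zero hu hΔ.ne)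
  rw [← isNm_mul_sq_left (a := u) hΔ.ne, ← isNm_mul_sq_left (a := Δ) hs0]
  have e : u * Δ ^ 2 = Δ * s ^ 2 := by linear_combination Δ * hs
  rw [e]

theorem odd_form {k : ℤ} (hk : Odd k) : ∃ r : ℤ, -k = 2 * r + 1 := by
  obtain ⟨i, hi⟩ := hk
  exact ⟨-i - 1, by omega⟩

theorem v_pi (L : LF E) : L.v L.π = exp (2 * (-1) + 1) := by rw [L.v_π]; norm_num

theorem IsDel.nonnorm_mul (hΔ : IsDel L Δ) {a b c : E} (ha : a ≠ 0) (hb : ¬ IsNm a b)
    (hc : ¬ IsNm a c) : IsNm a (b * c) := by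
  rcases parity L ha with ⟨k, hk⟩ | ⟨k, hk⟩
  · have hp := ne_of_v (v_zpow L k)
    have hu := unit_of_even hk
    rw [← isNm_mul_sq_left hp] at hb hc ⊢
    generalize a * (L.π ^ k) ^ 2 = u at hb hc hu ⊢
    have hu0 := ne_of_unit hu
    rcases hΔ.tri u hu with h1 | h1 | ⟨d, j, hj, -, hd, -⟩
    · exact isNm_of_isSquare hu0 h1 _
    · rw [hΔ.nm_iff hu0 h1] at hb hc ⊢
      obtain ⟨m, hm⟩ := (parity L (ne_of_not hb)).resolve_left fun ⟨m, hm⟩ => hb (hΔ.of_even hm)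
      obtain ⟨n, hn⟩ := (parity L (ne_of_not hc)).resolve_left fun ⟨m, hm⟩ => hc (hΔ.of_even hm)
      exact hΔ.of_even (n := m + n + 1) (by rw [v_mul hm hn]; congr 1; ring)
    · obtain ⟨r, hr⟩ := odd_form hj
      rw [hr, ← L.v.map_neg] at hd
      exact hΔ.mul_of_odd_nm hu0 hd ⟨1, d, by ring⟩ hb hc
  · exact hΔ.mul_of_odd_nm ha ((L.v.map_neg a).trans hk) ⟨0, 1, by ring⟩ hb hc

theorem IsDel.exists_nonnorm (hΔ : IsDel L Δ) {a : E} (h : ¬ IsSquare a) : ∃ b, ¬ IsNm a b := by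
  have ha : a ≠ 0 := by
    rintro rfl
    exact h IsSquare.zero
  rcases parity L ha with ⟨k, hk⟩ | ⟨k, hk⟩
  · have hp := ne_of_v (v_zpow L k)
    have hu := unit_of_even hk
    have h' : ¬ IsSquare (a * (L.π ^ k) ^ 2) := by
      rintro ⟨s, hs⟩
      exact h ⟨s / L.π ^ k, by field_simp; linear_combination hs⟩
    simp only [← isNm_mul_sq_left (a := a) hp]
    generalize a * (L.π ^ k) ^ 2 = u at h' hu ⊢
    have hu0 := ne_of_unit hu
    rcases hΔ.tri u hu with h1 | h1 | ⟨d, j, hj, hj0, hd, h4⟩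
    · exact absurd h1 h'
    · exact ⟨L.π, by rw [hΔ.nm_iff hu0 h1]; exact hΔ.not_odd (v_pi L)⟩
    · have h1 : exp (-j) < 1 := by rw [← exp_zero, exp_lt_exp]; omega
      have h2 : L.v (1 - u * Δ * d ^ 2) = exp (-j) := by
        have e : 1 - u * Δ * d ^ 2 = -((u * d ^ 2 - 1) + u * d ^ 2 * (Δ - 1)) := by ring
        rw [e, L.v.map_neg, L.v.map_add_eq_of_lt_left, hd]
        rw [map_mul, unit_of_lt (hd ▸ h1), one_mul, hd]
        exact hΔ.le.trans_lt h4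
      obtain ⟨r, hr⟩ := odd_form hj
      rw [hr] at h2
      have h3 : IsNm (u * Δ) (1 - u * Δ * d ^ 2) := ⟨1, d, by ring⟩
      have h0 := ne_of_v h2
      refine ⟨1 - u * Δ * d ^ 2, fun h5 => hΔ.not_odd h2 ?_⟩
      exact (IsNm.of_mul hu0 (h5.comm hu0 h0) (h3.comm (mul_ne_zero hu0 hΔ.ne) h0)).comm h0 hΔ.ne
  · exact ⟨Δ, fun h1 => hΔ.not_odd hk (h1.comm ha hΔ.ne)⟩

theorem IsDel.common (hΔ : IsDel L Δ) {α β g : E} (hα : α ≠ 0) (hβ : β ≠ 0) (hg : g ≠ 0)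
    (h : ¬ IsSquare (α * β)) : ∃ x, x ≠ 0 ∧ IsNm α x ∧ IsNm β (g * x) := by
  by_cases h1 : IsNm β g
  · exact ⟨1, one_ne_zero, ⟨1, 0, by ring⟩, by rwa [mul_one]⟩
  by_cases h2 : IsNm α g
  · exact ⟨g, hg, h2, ⟨g, 0, by ring⟩⟩
  obtain ⟨x, hx⟩ := hΔ.exists_nonnorm h
  have hx0 := ne_of_not hx
  have hx' : ¬ IsNm x (α * β) := fun h3 => hx (h3.comm hx0 (mul_ne_zero hα hβ))
  by_cases h3 : IsNm α x
  · refine ⟨x, hx0, h3, hΔ.nonnorm_mul hβ h1 fun h4 => hx' ?_⟩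
    exact (h3.comm hα hx0).mul (h4.comm hβ hx0)
  · have h4 : IsNm β x := by
      by_contra h4
      exact hx' (hΔ.nonnorm_mul hx0 (fun h5 => h3 (h5.comm hx0 hα)) fun h5 => h4 (h5.comm hx0 hβ))
    refine ⟨g * x, mul_ne_zero hg hx0, hΔ.nonnorm_mul hα h2 h3, ?_⟩
    have e : g * (g * x) = x * g ^ 2 := by ring
    rw [e]
    exact h4.mul (isNm_sq β g)

theorem IsDel.exists_nonsq (hΔ : IsDel L Δ) {a : E} (ha : a ≠ 0) :
    ∃ n, IsNm a n ∧ ¬ IsSquare n := by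
  by_cases h1 : IsNm a L.π
  · exact ⟨_, h1, not_sq_of_odd (v_pi L)⟩
  by_cases h2 : IsNm a Δ
  · exact ⟨_, h2, hΔ.nsq⟩
  refine ⟨_, hΔ.nonnorm_mul ha h1 h2, not_sq_of_odd (L := L) (n := -1) ?_⟩
  rw [map_mul, hΔ.unit, mul_one, v_pi]

theorem ne_of_nm {a x y : E} (h : x ^ 2 - a * y ^ 2 ≠ 0) : x ≠ 0 ∨ y ≠ 0 := by
  by_contra h0
  push Not at h0
  exact h (by rw [h0.1, h0.2]; ring)

end Local2Aux

open Local2Aux AlgAux

theorem LF.iso_four (L : LF E) {a b c d : E} (h : ¬ IsSquare (a * b * c * d)) :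
    Iso ![a, b, c, d] := by
  obtain ⟨Δ, hΔ⟩ := exists_del L
  have h0 : a * b * c * d ≠ 0 := fun h0 => h (h0 ▸ IsSquare.zero)
  simp only [ne_eq, mul_eq_zero, not_or] at h0
  obtain ⟨⟨⟨ha, hb⟩, hc⟩, hd⟩ := h0
  obtain ⟨x, hx0, ⟨x₁, x₂, h1⟩, y₁, y₂, h2⟩ := hΔ.common (α := -(a * b)) (β := -(c * d))
    (g := -(a * c)) (neg_ne_zero.2 (mul_ne_zero ha hb)) (neg_ne_zero.2 (mul_ne_zero hc hd))
    (neg_ne_zero.2 (mul_ne_zero ha hc)) (by rwa [neg_mul_neg, ← mul_assoc])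
  refine iso_iff4.2 ⟨c * x₁, a * c * x₂, y₁, c * y₂, ?_, ?_⟩
  · rcases ne_of_nm (h1 ▸ hx0) with h3 | h3
    exacts [Or.inl (mul_ne_zero hc h3), Or.inr (Or.inl (mul_ne_zero (mul_ne_zero ha hc) h3))]
  · linear_combination -c * h2 - a * c ^ 2 * h1

theorem LF.iso_five (L : LF E) (a : Fin 5 → E) : Iso a := by
  obtain ⟨Δ, hΔ⟩ := exists_del L
  by_cases h0 : ∃ i, a i = 0
  · obtain ⟨i, hi⟩ := h0
    exact Iso.of_zero hi
  push Not at h0
  obtain ⟨n, hn, hn'⟩ := hΔ.exists_nonsq (neg_ne_zero.2 (mul_ne_zero (h0 0) (h0 1)))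
  have key : ∃ t, t ≠ 0 ∧ IsNm (-(a 0 * a 1)) t ∧ ¬ IsSquare (a 0 * t * a 2 * a 3 * a 4) := by
    by_cases h1 : IsSquare (a 0 * 1 * a 2 * a 3 * a 4)
    · refine ⟨n, fun h => hn' (h ▸ IsSquare.zero), hn, fun h2 => hn' ?_⟩
      obtain ⟨r, hr⟩ := h1
      obtain ⟨s, hs⟩ := h2
      have hr0 : r ≠ 0 := left_ne_zero_of_mul (b := r) (by rw [← hr]; simp [h0])
      refine ⟨s / r, ?_⟩
      field_simp
      linear_combination hs - n * hr
    · exact ⟨1, one_ne_zero, ⟨1, 0, by ring⟩, h1⟩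
  obtain ⟨t, ht0, ⟨x, y, ht⟩, hs⟩ := key
  obtain ⟨X, z, w, u, h1, h2⟩ := iso_iff4.1 (L.iso_four hs)
  refine ⟨![x * X, a 0 * y * X, z, w, u], fun hv => ?_, ?_⟩
  · have e0 : x * X = 0 := congrFun hv 0
    have e1 : a 0 * y * X = 0 := congrFun hv 1
    have e2 : z = 0 := congrFun hv 2
    have e3 : w = 0 := congrFun hv 3
    have e4 : u = 0 := congrFun hv 4
    rcases h1 with h1 | h1 | h1 | h1
    · rcases ne_of_nm (ht ▸ ht0) with h3 | h3
      exacts [mul_ne_zero h3 h1 e0, mul_ne_zero (mul_ne_zero (h0 0) h3) h1 e1]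
    exacts [h1 e2, h1 e3, h1 e4]
  · have e : a 0 * (x * X) ^ 2 + a 1 * (a 0 * y * X) ^ 2 + a 2 * z ^ 2 + a 3 * w ^ 2 +
        a 4 * u ^ 2 = 0 := by linear_combination h2 - a 0 * X ^ 2 * ht
    simpa [Fin.sum_univ_five] using e

theorem LF.isoM (L : LF E) {ι : Type} [Fintype ι] [DecidableEq ι] (hι : 5 ≤ Fintype.card ι)
    (A : Matrix ι ι E) (hA : Aᵀ = A) : IsoM A := by
  obtain ⟨P, d, hP, hd⟩ := exists_diag A hA
  obtain ⟨f⟩ : Nonempty (Fin 5 ↪ ι) := Function.Embedding.nonempty_of_card_le (by simpa using hι)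
  obtain ⟨x, hx, h⟩ := L.iso_five fun i => d (f i)
  have hy : ∀ i, Function.extend f x 0 (f i) = x i := fun i => f.injective.extend_apply x 0 i
  refine ⟨P *ᵥ Function.extend f x 0, fun h0 => hx (funext fun i => ?_), ?_⟩
  · have h1 : Function.extend f x 0 = 0 :=
      (mulVec_injective_iff_isUnit.2 hP) (h0.trans (mulVec_zero P).symm)
    rw [← hy i, h1]
    rfl
  · rw [mulVec_mulVec, dotProduct_mulVec, vecMul_mulVec, ← Matrix.mul_assoc, hd, ← h]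
    symm
    refine Fintype.sum_of_injective f f.injective _ _ (fun j hj => ?_) fun i => ?_
    · rw [Function.extend_apply' _ _ _ (fun ⟨i, hi⟩ => hj ⟨i, hi⟩)]
      simp
    · rw [vecMul_diagonal, hy]
      ring

theorem LF.exists_nonnorm (L : LF E) {a : E} (h : ¬ IsSquare a) :
    ∃ b : E, b ≠ 0 ∧ ¬ IsNm a b := by
  obtain ⟨Δ, hΔ⟩ := exists_del L
  obtain ⟨b, hb⟩ := hΔ.exists_nonnorm h
  exact ⟨b, ne_of_not hb, hb⟩

theorem LF.nonnorm_mul (L : LF E) {a b c : E} (ha : a ≠ 0) (hb : ¬ IsNm a b) (hc : ¬ IsNm a c) :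
    IsNm a (b * c) := by
  obtain ⟨Δ, hΔ⟩ := exists_del L
  exact hΔ.nonnorm_mul ha hb hc

end Pool.Agent.P.MP_3c2f8c_gt
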