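import Pool.Agent.P.MP_3c2f8c_gt.NT.Defs

/-! NT-1: quadratic forms over a field of characteristic zero. -/

set_option linter.unusedSectionVars false
set_option linter.unusedVariables false

namespace Pool.Agent.P.MP_3c2f8c_gt

open Matrix

variable {E : Type} [Field E] [CharZero E]

theorem IsNm.map {R S : Type} [CommRing R] [CommRing S] (φ : R →+* S) {a b : R} (h : IsNm a b) :
    IsNm (φ a) (φ b) := by
  obtain ⟨x, y, rfl⟩ := h
  exact ⟨φ x, φ y, by simp⟩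

theorem IsNm.mul {R : Type} [CommRing R] {a b c : R} (hb : IsNm a b) (hc : IsNm a c) :
    IsNm a (b * c) := by
  obtain ⟨x, y, rfl⟩ := hb
  obtain ⟨z, w, rfl⟩ := hc
  exact ⟨x * z + a * y * w, x * w + y * z, by ring⟩

theorem isNm_sq {R : Type} [CommRing R] (a c : R) : IsNm a (c ^ 2) := ⟨c, 0, by ring⟩

theorem isNm_of_isSquare {a : E} (ha : a ≠ 0) (h : IsSquare a) (b : E) : IsNm a b := by
  obtain ⟨r, rfl⟩ := h
  have hr : r ≠ 0 := left_ne_zero_of_mul ha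
  refine ⟨(b + 1) / 2, (b - 1) / (2 * r), ?_⟩
  field_simp
  ring

theorem IsNm.comm {a b : E} (ha : a ≠ 0) (hb : b ≠ 0) (h : IsNm a b) : IsNm b a := by
  obtain ⟨x, y, h⟩ := h
  by_cases hy : y = 0
  · exact isNm_of_isSquare hb ⟨x, by rw [h, hy]; ring⟩ a
  · refine ⟨x / y, 1 / y, ?_⟩
    rw [h]
    field_simp
    ring

theorem isNm_mul_sq {a b c : E} (hc : c ≠ 0) : IsNm a (b * c ^ 2) ↔ IsNm a b := by
  refine ⟨fun h => ?_, fun h => h.mul (isNm_sq a c)⟩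
  have e : b * c ^ 2 * c⁻¹ ^ 2 = b := by field_simp
  exact e ▸ h.mul (isNm_sq a c⁻¹)

theorem isNm_mul_sq_left {a b c : E} (hc : c ≠ 0) : IsNm (a * c ^ 2) b ↔ IsNm a b := by
  constructor
  · rintro ⟨x, y, rfl⟩
    exact ⟨x, c * y, by ring⟩
  · rintro ⟨x, y, rfl⟩
    exact ⟨x, y / c, by field_simp⟩

theorem IsNm.of_mul {a b c : E} (hb : b ≠ 0) (h : IsNm a b) (h' : IsNm a (b * c)) :
    IsNm a c := by
  have e : b * (b * c) = c * b ^ 2 := by ring
  exact (isNm_mul_sq hb).1 (e ▸ h.mul h')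

namespace AlgAux

theorem sq_of_norm {a x y : E} (h : x ^ 2 - a * y ^ 2 = 0) (h0 : x ≠ 0 ∨ y ≠ 0) : IsSquare a := by
  have hy : y ≠ 0 := by
    rintro rfl
    simp at h h0
    exact h0 h
  refine ⟨x / y, ?_⟩
  field_simp
  linear_combination -h

theorem iso_iff3 {R : Type} [CommRing R] {a b c : R} : Iso ![a, b, c] ↔
    ∃ x y z : R, (x ≠ 0 ∨ y ≠ 0 ∨ z ≠ 0) ∧ a * x ^ 2 + b * y ^ 2 + c * z ^ 2 = 0 := by
  constructor
  · rintro ⟨v, hv, h⟩
    refine ⟨v 0, v 1, v 2, ?_, by simpa [Fin.sum_univ_three] using h⟩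
    by_contra h0
    push Not at h0
    refine hv (funext fun i => ?_)
    fin_cases i
    exacts [h0.1, h0.2.1, h0.2.2]
  · rintro ⟨x, y, z, h0, h⟩
    refine ⟨![x, y, z], fun hv => ?_, by simpa [Fin.sum_univ_three] using h⟩
    rcases h0 with h0 | h0 | h0
    exacts [h0 (congrFun hv 0), h0 (congrFun hv 1), h0 (congrFun hv 2)]

theorem iso_iff4 {R : Type} [CommRing R] {a b c d : R} : Iso ![a, b, c, d] ↔
    ∃ x y z w : R, (x ≠ 0 ∨ y ≠ 0 ∨ z ≠ 0 ∨ w ≠ 0) ∧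
      a * x ^ 2 + b * y ^ 2 + c * z ^ 2 + d * w ^ 2 = 0 := by
  constructor
  · rintro ⟨v, hv, h⟩
    refine ⟨v 0, v 1, v 2, v 3, ?_, by simpa [Fin.sum_univ_four] using h⟩
    by_contra h0
    push Not at h0
    refine hv (funext fun i => ?_)
    fin_cases i
    exacts [h0.1, h0.2.1, h0.2.2.1, h0.2.2.2]
  · rintro ⟨x, y, z, w, h0, h⟩
    refine ⟨![x, y, z, w], fun hv => ?_, by simpa [Fin.sum_univ_four] using h⟩
    rcases h0 with h0 | h0 | h0 | h0
    exacts [h0 (congrFun hv 0), h0 (congrFun hv 1), h0 (congrFun hv 2), h0 (congrFun hv 3)]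

theorem iso5 {R : Type} [CommRing R] {a b c d e : R} (h : Iso ![a, b, c, d, e]) :
    ∃ x y z w u : R, (x ≠ 0 ∨ y ≠ 0 ∨ z ≠ 0 ∨ w ≠ 0 ∨ u ≠ 0) ∧
      a * x ^ 2 + b * y ^ 2 + c * z ^ 2 + d * w ^ 2 + e * u ^ 2 = 0 := by
  obtain ⟨v, hv, h⟩ := h
  refine ⟨v 0, v 1, v 2, v 3, v 4, ?_, by simpa [Fin.sum_univ_five] using h⟩
  by_contra h0
  push Not at h0
  refine hv (funext fun i => ?_)
  fin_cases i
  exacts [h0.1, h0.2.1, h0.2.2.1, h0.2.2.2.1, h0.2.2.2.2]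

end AlgAux

open AlgAux

/-- A zero divisor in the quaternion algebra `(a, b)` makes `b` a norm. -/
theorem isNm_of_iso4 {a b : E} (ha : a ≠ 0) (h : Iso ![1, -a, -b, a * b]) : IsNm a b := by
  obtain ⟨x, y, z, w, h0, h⟩ := iso_iff4.1 h
  by_cases hN : z ^ 2 - a * w ^ 2 = 0
  · have hN' : x ^ 2 - a * y ^ 2 = 0 := by linear_combination h + b * hN
    refine isNm_of_isSquare ha ?_ b
    rcases h0 with h0 | h0 | h0 | h0
    exacts [sq_of_norm hN' (Or.inl h0), sq_of_norm hN' (Or.inr h0), sq_of_norm hN (Or.inl h0),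
      sq_of_norm hN (Or.inr h0)]
  · exact IsNm.of_mul hN ⟨z, w, rfl⟩ ⟨x, y, by linear_combination -h⟩

theorem Iso.map {L ι : Type} [Field L] [Fintype ι] (φ : E →+* L) {a : ι → E} (h : Iso a) :
    Iso fun i => φ (a i) := by
  obtain ⟨x, hx, h⟩ := h
  refine ⟨fun i => φ (x i), fun h0 => hx (funext fun i => ?_), ?_⟩
  · simpa using congrFun h0 i
  · simpa using congrArg φ h

theorem Iso.of_zero {ι : Type} [Fintype ι] {a : ι → E} {i : ι} (h : a i = 0) : Iso a := by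
  classical
  refine ⟨Pi.single i 1, fun h0 => by simpa using congrFun h0 i, ?_⟩
  refine Finset.sum_eq_zero fun j _ => ?_
  by_cases hj : j = i
  · rw [hj, h, zero_mul]
  · simp [hj]

theorem Iso.represents {ι : Type} [Fintype ι] {a : ι → E} (ha : ∀ i, a i ≠ 0) (h : Iso a)
    (t : E) : ∃ x : ι → E, ∑ i, a i * x i ^ 2 = t := by
  classical
  obtain ⟨x, hx, h⟩ := h
  obtain ⟨i, hi⟩ := Function.ne_iff.1 hx
  have hi' : x i ≠ 0 := hi
  have hai := ha i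
  obtain ⟨s, hs⟩ : ∃ s : E, 2 * s * (a i * x i) + a i = t :=
    ⟨(t - a i) / (2 * (a i * x i)), by field_simp; ring⟩
  refine ⟨fun j => s * x j + if j = i then 1 else 0, ?_⟩
  have e : ∀ j, a j * (s * x j + if j = i then 1 else 0) ^ 2 =
      s ^ 2 * (a j * x j ^ 2) + if j = i then 2 * s * (a i * x i) + a i else 0 := fun j => by
    split_ifs with hj
    · rw [hj]
      ring
    · ring
  simp only [e, Finset.sum_add_distrib, ← Finset.mul_sum, h, Finset.sum_ite_eq',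
    Finset.mem_univ, if_true, mul_zero, zero_add, hs]

theorem represents_of_iso {k : ℕ} {a : Fin k → E} (ha : ∀ i, a i ≠ 0) {t : E} (ht : t ≠ 0)
    (h : Iso (Fin.cons (-t) a : Fin (k + 1) → E)) : ∃ x : Fin k → E, ∑ i, a i * x i ^ 2 = t := by
  obtain ⟨x, hx, h⟩ := h
  simp only [Fin.sum_univ_succ, Fin.cons_zero, Fin.cons_succ] at h
  by_cases h0 : x 0 = 0
  · refine Iso.represents ha ⟨fun i => x i.succ, fun h1 => hx (funext fun i => ?_), ?_⟩ t
    · exact Fin.cases h0 (fun j => congrFun h1 j) i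
    · simpa [h0] using h
  · refine ⟨fun i => x i.succ / x 0, ?_⟩
    simp only [div_pow, ← mul_div_assoc, ← Finset.sum_div]
    rw [div_eq_iff (pow_ne_zero 2 h0)]
    linear_combination h

theorem iso3_iff {a b c : E} (ha : a ≠ 0) (hb : b ≠ 0) (hc : c ≠ 0) :
    Iso ![a, b, c] ↔ IsNm (-(a * c)) (-(a * b)) := by
  constructor
  · intro h
    obtain ⟨x, y, z, h0, h⟩ := iso_iff3.1 h
    refine isNm_of_iso4 (neg_ne_zero.2 (mul_ne_zero ha hc))
      (iso_iff4.2 ⟨a * x, z, y, 0, ?_, by linear_combination a * h⟩)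
    rcases h0 with h0 | h0 | h0
    exacts [Or.inl (mul_ne_zero ha h0), Or.inr (Or.inr (Or.inl h0)), Or.inr (Or.inl h0)]
  · rintro ⟨x, y, h⟩
    exact iso_iff3.2 ⟨x, a, a * y, Or.inr (Or.inl ha), by linear_combination (-a) * h⟩

theorem iso3_of_iso4 {a b c d : E} (ha : a ≠ 0) (hb : b ≠ 0) (hc : c ≠ 0) (hd : d ≠ 0)
    (hs : IsSquare (a * b * c * d)) (h : Iso ![a, b, c, d]) : Iso ![a, b, c] := by
  obtain ⟨s, hs⟩ := hs
  obtain ⟨x, y, z, w, h0, h⟩ := iso_iff4.1 h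
  have hs0 : s ≠ 0 := left_ne_zero_of_mul (b := s) (by rw [← hs]; simp [ha, hb, hc, hd])
  have hk : a * b * c ≠ 0 := by simp [ha, hb, hc]
  refine (iso3_iff ha hb hc).2 (isNm_of_iso4 (neg_ne_zero.2 (mul_ne_zero ha hc))
    (iso_iff4.2 ⟨a * b * c * (a * x), a * b * c * z, a * b * c * y, s * w, ?_, ?_⟩))
  · rcases h0 with h0 | h0 | h0 | h0
    exacts [Or.inl (mul_ne_zero hk (mul_ne_zero ha h0)),
      Or.inr (Or.inr (Or.inl (mul_ne_zero hk h0))), Or.inr (Or.inl (mul_ne_zero hk h0)),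
      Or.inr (Or.inr (Or.inr (mul_ne_zero hs0 h0)))]
  · linear_combination (a * b * c) ^ 2 * a * h - a ^ 2 * b * c * w ^ 2 * hs

theorem iso4_of_iso3 {a b c : E} (d : E) (h : Iso ![a, b, c]) : Iso ![a, b, c, d] := by
  obtain ⟨x, y, z, h0, h⟩ := iso_iff3.1 h
  exact iso_iff4.2 ⟨x, y, z, 0, by tauto, by linear_combination h⟩

theorem iso4_of_ext {L : Type} [Field L] [Algebra E L] {a b c d : E} (ha : a ≠ 0) (hb : b ≠ 0)
    (hc : c ≠ 0) (hd : d ≠ 0) (r : L) (hr : r ^ 2 = algebraMap E L (a * b * c * d))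
    (hr' : ∀ α : E, algebraMap E L α ≠ r)
    (hL : ∀ x : L, ∃ α β : E, x = algebraMap E L α + algebraMap E L β * r)
    (h : Iso ![algebraMap E L a, algebraMap E L b, algebraMap E L c]) : Iso ![a, b, c, d] := by
  obtain ⟨x, y, z, h0, h⟩ := iso_iff3.1 h
  obtain ⟨x₁, y₁, rfl⟩ := hL x
  obtain ⟨x₂, y₂, rfl⟩ := hL y
  obtain ⟨x₃, y₃, rfl⟩ := hL z
  have e : algebraMap E L (a * x₁ ^ 2 + b * x₂ ^ 2 + c * x₃ ^ 2 +
      a * b * c * d * (a * y₁ ^ 2 + b * y₂ ^ 2 + c * y₃ ^ 2)) +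
      algebraMap E L (2 * (a * x₁ * y₁ + b * x₂ * y₂ + c * x₃ * y₃)) * r = 0 := by
    simp only [map_add, map_mul, map_pow, map_ofNat] at hr ⊢
    linear_combination h - (algebraMap E L a * algebraMap E L y₁ ^ 2 +
      algebraMap E L b * algebraMap E L y₂ ^ 2 + algebraMap E L c * algebraMap E L y₃ ^ 2) * hr
  have ind : ∀ u v : E, algebraMap E L u + algebraMap E L v * r = 0 → u = 0 ∧ v = 0 := by
    intro u v huv
    by_cases hv : v = 0
    · exact ⟨by simpa [hv] using huv, hv⟩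
    · have hv' : algebraMap E L v ≠ 0 := by simpa using hv
      refine absurd ?_ (hr' (-u / v))
      rw [map_div₀, map_neg, div_eq_iff hv']
      linear_combination -huv
  obtain ⟨e₁, e₂⟩ := ind _ _ e
  have e₃ : a * x₁ * y₁ + b * x₂ * y₂ + c * x₃ * y₃ = 0 := by simpa using e₂
  by_cases hq : a * y₁ ^ 2 + b * y₂ ^ 2 + c * y₃ ^ 2 = 0
  · refine iso4_of_iso3 d ?_
    by_cases hy : y₁ ≠ 0 ∨ y₂ ≠ 0 ∨ y₃ ≠ 0
    · exact iso_iff3.2 ⟨_, _, _, hy, hq⟩
    · push Not at hy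
      refine iso_iff3.2 ⟨x₁, x₂, x₃, ?_, by linear_combination e₁ - a * b * c * d * hq⟩
      simpa [hy.1, hy.2.1, hy.2.2] using h0
  · refine iso_iff4.2 ⟨b * c * (x₂ * y₃ - x₃ * y₂), a * c * (x₃ * y₁ - x₁ * y₃),
      a * b * (x₁ * y₂ - x₂ * y₁), a * b * c * (a * y₁ ^ 2 + b * y₂ ^ 2 + c * y₃ ^ 2),
      Or.inr (Or.inr (Or.inr (mul_ne_zero (by simp [ha, hb, hc]) hq))), ?_⟩
    linear_combination a * b * c * (a * y₁ ^ 2 + b * y₂ ^ 2 + c * y₃ ^ 2) * e₁ -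
      a * b * c * (a * x₁ * y₁ + b * x₂ * y₂ + c * x₃ * y₃) * e₃

theorem iso5_split {a b c d e : E} (ha : a ≠ 0) (hb : b ≠ 0) (hc : c ≠ 0) (hd : d ≠ 0)
    (he : e ≠ 0) (h : Iso ![a, b, c, d, e]) :
    ∃ x y : E, a * x ^ 2 + b * y ^ 2 ≠ 0 ∧ Iso ![a * x ^ 2 + b * y ^ 2, c, d, e] := by
  obtain ⟨x, y, z, w, u, h0, h⟩ := iso5 h
  by_cases ht : a * x ^ 2 + b * y ^ 2 = 0
  · by_cases h1 : z ≠ 0 ∨ w ≠ 0 ∨ u ≠ 0
    · exact ⟨1, 0, by simpa using ha,
        iso_iff4.2 ⟨0, z, w, u, Or.inr h1, by linear_combination h - ht⟩⟩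
    · have h2 : Iso ![a, b] := by
        refine ⟨![x, y], fun hv => ?_, by simpa [Fin.sum_univ_two] using ht⟩
        have hx : x = 0 := congrFun hv 0
        have hy : y = 0 := congrFun hv 1
        tauto
      obtain ⟨v, hv⟩ := h2.represents (fun i => by fin_cases i <;> assumption) (-c)
      have hv' : a * v 0 ^ 2 + b * v 1 ^ 2 = -c := by simpa [Fin.sum_univ_two] using hv
      exact ⟨v 0, v 1, by simpa [hv'] using hc,
        iso_iff4.2 ⟨1, 1, 0, 0, Or.inl one_ne_zero, by linear_combination hv'⟩⟩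
  · exact ⟨x, y, ht, iso_iff4.2 ⟨1, z, w, u, Or.inl one_ne_zero, by linear_combination h⟩⟩

theorem iso4_of_sq_mul {t t' c d e : E} (ht : t ≠ 0) (ht' : t' ≠ 0) (hs : IsSquare (t * t'))
    (h : Iso ![t, c, d, e]) : Iso ![t', c, d, e] := by
  obtain ⟨s, hs⟩ := hs
  obtain ⟨x, y, z, w, h0, h⟩ := iso_iff4.1 h
  have hs0 : s ≠ 0 := left_ne_zero_of_mul (b := s) (hs ▸ mul_ne_zero ht ht')
  refine iso_iff4.2 ⟨s * x, t' * y, t' * z, t' * w, ?_, ?_⟩
  · simpa [hs0, ht'] using h0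
  · linear_combination t' ^ 2 * h - t' * x ^ 2 * hs

theorem exists_diag {ι : Type} [Fintype ι] [DecidableEq ι] (A : Matrix ι ι E) (hA : Aᵀ = A) :
    ∃ (P : Matrix ι ι E) (d : ι → E), IsUnit P ∧ Pᵀ * A * P = diagonal d := by
  haveI : Invertible (2 : E) := invertibleOfNonzero two_ne_zero
  have hs : LinearMap.IsSymm (Matrix.toBilin' A) := ⟨fun x y => by
    rw [Matrix.toBilin'_apply', Matrix.toBilin'_apply', RingHom.id_apply, dotProduct_mulVec,
      ← mulVec_transpose, hA, dotProduct_comm]⟩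
  obtain ⟨v, hv⟩ := LinearMap.BilinForm.exists_orthogonal_basis hs
  let e : Fin (Module.finrank E (ι → E)) ≃ ι :=
    Fintype.equivOfCardEq (by simp)
  let b := v.reindex e
  haveI := (Pi.basisFun E ι).invertibleToMatrix b
  refine ⟨(Pi.basisFun E ι).toMatrix b, fun i => Matrix.toBilin' A (b i) (b i),
    isUnit_of_invertible _, ?_⟩
  ext i j
  have e1 : (((Pi.basisFun E ι).toMatrix b)ᵀ * A * (Pi.basisFun E ι).toMatrix b) i j =
      Matrix.toBilin' A (b i) (b j) := by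
    rw [Matrix.toBilin'_apply', dotProduct_mulVec]
    simp [Matrix.mul_apply, Module.Basis.toMatrix_apply, dotProduct, vecMul]
  rw [e1]
  by_cases hij : i = j
  · rw [hij, diagonal_apply_eq]
  · rw [diagonal_apply_ne _ hij]
    simpa [b] using hv (e.symm.injective.ne hij)

end Pool.Agent.P.MP_3c2f8c_gt
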