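import Pool.Agent.P.MP_3c2f8c_gt.NT.Herb

/-! NT-7: the auxiliary set of primes, with real places. -/

namespace Pool.Agent.P.MP_3c2f8c_gt

open Matrix NumberField IsDedekindDomain
open Pool.Agent.P.MP_9ec3f0_nt.SY

variable {F : Type} [Field F] [NumberField F]

open HasseAux

theorem exists_TR {M : Type} [Field M] [NumberField M] [Algebra F M] (Q : Quad F M)
    (S : Finset (Pr F)) (h2 : ∀ v, v ∉ S → v.valuation F 2 = 1)
    (ha : ∀ v, v ∉ S → v.valuation F Q.a = 1) (i : ℕ) (hi : i ≤ Units.rank F + S.card) :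
    ∃ T : Finset (Pr F), T.card = i ∧ (∀ v ∈ T, v ∉ S ∧ SplitAt v Q.a) ∧
      (HT T).relIndex (SU S) = 2 ^ i := by
  classical
  induction i with
  | zero =>
    exact ⟨∅, rfl, by simp, Subgroup.relIndex_eq_one.2 fun x _ v hv => by simp at hv⟩
  | succ i ih =>
    obtain ⟨T, t1, t2, t3⟩ := ih (by omega)
    have hex : ∃ u ∈ HT T ⊓ SU S, u ∉ Wq Q := by
      by_contra hc
      have hle : HT T ⊓ SU S ≤ Wq Q := fun u hu => by
        by_contra h
        exact hc ⟨u, hu, h⟩
      have e1 := Subgroup.relIndex_le_of_le_left (L := SU S) hle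
        (by rw [Subgroup.inf_relIndex_right, t3]; positivity)
      rw [Subgroup.inf_relIndex_right, t3] at e1
      have e2 : Sq F ≤ Wq Q := fun x hx => (Q.isSquare_iff x).2 (Or.inl (mem_Sq.1 hx))
      have e3 := Subgroup.relIndex_inf_mul_relIndex (Sq F) (Wq Q) (SU S)
      rw [inf_eq_left.2 e2, relIndex_Sq] at e3
      have e4 : (Sq F).relIndex (Wq Q ⊓ SU S) ≤ 2 := rel_le_two fun x hx y hy hx' hy' => by
        rw [mem_Sq] at hx' hy' ⊢
        obtain ⟨p, hp⟩ := ((Q.isSquare_iff x).1 hx.1).resolve_left hx'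
        obtain ⟨q, hq⟩ := ((Q.isSquare_iff y).1 hy.1).resolve_left hy'
        have := Q.a_ne
        refine ⟨p * q / Q.a, ?_⟩
        rw [Units.val_mul]
        field_simp
        linear_combination (q * q) * hp + (x * Q.a) * hq
      have e5 := Nat.mul_le_mul e4 e1
      rw [e3, ← pow_succ'] at e5
      have := (Nat.pow_le_pow_iff_right one_lt_two).1 e5
      omega
    obtain ⟨u, hu, hu'⟩ := hex
    obtain ⟨w, w1, -, -, w4⟩ := exists_inertR (algebraMap F M u) hu'
      (finite_above M (S ∪ T)).toFinset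
    simp only [Set.Finite.mem_toFinset, Set.mem_ofPred_eq, Finset.mem_union, not_or] at w1
    have n1 : ¬ SplitAt (dn F w) (u : F) := fun h => w4 h.algebraMap
    have n2 : SplitAt (dn F w) Q.a := by
      by_contra h
      have h3 := (splitAt_mul_of_not (h2 _ w1.1) (val_SU hu.2 w1.1) (ha _ w1.1) n1 h).algebraMap
      have h4 := h3.mul (splitAt_sq w Q.r_ne).inv
      rw [map_mul, ← Q.r_sq, mul_inv_cancel_right₀ (pow_ne_zero 2 Q.r_ne)] at h4
      exact w4 h4
    refine ⟨insert (dn F w) T, by rw [Finset.card_insert_of_notMem w1.2, t1], ?_, ?_⟩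
    · intro v hv
      rcases Finset.mem_insert.1 hv with rfl | hv
      exacts [⟨w1.1, n2⟩, t2 v hv]
    · rw [HT_insert, ← Subgroup.relIndex_inf_mul_relIndex, t3, pow_succ',
        rel_eq_two (two_step w1.1 (h2 _ w1.1) inf_le_right) hu (by simpa [mem_HT] using n1)]

theorem sq_of_splitR (S T : Finset (Pr F)) (hS : ClassGen S)
    (h2 : ∀ v, v ∉ S → v.valuation F 2 = 1) (hT : ∀ v ∈ T, v ∉ S)
    (hi : (HT T).relIndex (SU S) = 2 ^ T.card) {b : F} (hb : b ≠ 0)
    (hb1 : ∀ v, v ∉ S → v ∉ T → ord v b = 0) (hb2 : ∀ v ∈ S, SplitAt v b)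
    (hb3 : ∀ φ : F →+* ℝ, 0 < φ b) : IsSquare b := by
  classical
  by_contra hn
  obtain ⟨M', _, _, _, Q, rfl⟩ := exists_quad_ext F b hn
  let R := T.filter (fun v => Odd (ord v Q.a))
  have hR : R ⊆ T := Finset.filter_subset _ _
  have e1 : HT T = HT R ⊓ HT (T \ R) := by
    ext x
    simp only [Subgroup.mem_inf, mem_HT, Finset.mem_sdiff]
    refine ⟨fun h => ⟨fun v hv => h v (hR hv), fun v hv => h v hv.1⟩, fun h v hv => ?_⟩
    by_cases e : v ∈ R
    exacts [h.1 v e, h.2 v ⟨hv, e⟩]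
  have e2 := Subgroup.relIndex_inf_le (H := HT R) (K := HT (T \ R)) (L := SU S)
  have e3 := relIndex_HT_le h2 (T \ R) fun v hv => hT v (Finset.mem_sdiff.1 hv).1
  rw [← e1, hi, ← Finset.card_sdiff_add_card_eq_card hR, pow_add, mul_comm] at e2
  have e4 : 2 ^ R.card ≤ (HT R).relIndex (SU S) :=
    Nat.le_of_mul_le_mul_right (e2.trans (Nat.mul_le_mul_left _ e3)) (by positivity)
  have e5 := lemmaAR Q (S ∪ R) (hS.mono Finset.subset_union_left) (fun w hw => ?_) R
    (fun w hw hf => ?_) (A := HT R) (B := SU S) (fun x hx => ?_) (fun x hx hN v hv => ?_)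
    (by have : 0 < 2 ^ R.card := by positivity
        omega)
  · have : IsEmpty {φ : F →+* ℝ // φ Q.a < 0} := ⟨fun φ => lt_asymm φ.2 (hb3 φ.1)⟩
    rw [Nat.card_of_isEmpty, add_zero] at e5
    have : 0 < 2 ^ R.card := by positivity
    omega
  · rw [Finset.mem_union, not_or] at hw
    refine Q.unrP_of_unrAt (unrAt_of_odd (h2 _ hw.1) hb ?_)
    by_cases e : dn F w ∈ T
    · by_contra h
      exact hw.2 (Finset.mem_filter.2 ⟨e, Int.not_even_iff_odd.1 h⟩)
    · rw [hb1 _ hw.1 e]
      exact Even.zero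
  · exact (Finset.mem_union.1 hw).resolve_left fun h => Q.not_fixes_of_splitAt (hb2 _ h) hf
  · exact (mem_SU _ x).2 fun v hv =>
      (mem_SU _ x).1 hx v fun h => hv (Finset.mem_union_left _ h)
  · obtain ⟨z, hz⟩ := hN
    have hvS := hT v (hR hv)
    exact Q.splitAt_of_norm (h2 v hvS) (Finset.mem_filter.1 hv).2 (val_SU hx hvS) hz

namespace ChevAux

/-- Elements that are positive at a real embedding. -/
def Pos (φ : F →+* ℝ) : Subgroup Fˣ where
  carrier := {x | 0 < φ x}
  one_mem' := by simp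
  mul_mem' := fun {x y} hx hy => by
    have : 0 < φ x * φ y := mul_pos hx hy
    simpa using this
  inv_mem' := fun {x} hx => by
    have : 0 < (φ x)⁻¹ := inv_pos.2 hx
    simpa using this

omit [NumberField F] in
theorem mem_Pos {φ : F →+* ℝ} {x : Fˣ} : x ∈ Pos φ ↔ 0 < φ x := Iff.rfl

omit [NumberField F] in
theorem index_Pos (φ : F →+* ℝ) : (Pos φ).index ∣ 2 := by
  rw [← Subgroup.relIndex_top_right]
  refine rel_dvd_two fun x _ y _ hx hy => ?_
  have h : ∀ z : Fˣ, z ∉ Pos φ → φ z < 0 := fun z hz =>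
    lt_of_le_of_ne (not_lt.1 hz) ((map_ne_zero φ).2 z.ne_zero)
  rw [mem_Pos, Units.val_mul, map_mul]
  exact mul_pos_of_neg_of_neg (h x hx) (h y hy)

omit [NumberField F] in
theorem real_inj : Function.Injective fun φ : F →+* ℝ =>
    (⟨Complex.ofRealHom.comp φ, by
      rw [ComplexEmbedding.isReal_iff]
      ext x
      simp⟩ : {φ : F →+* ℂ // ComplexEmbedding.IsReal φ}) := by
  intro φ ψ h
  ext x
  have := RingHom.congr_fun (congrArg Subtype.val h) x
  simpa using this

theorem finite_real : Finite (F →+* ℝ) := Finite.of_injective _ real_inj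

theorem card_real : Nat.card (F →+* ℝ) ≤ InfinitePlace.nrRealPlaces F := by
  classical
  rw [← InfinitePlace.card_real_embeddings, ← Nat.card_eq_fintype_card]
  exact Nat.card_le_card_of_injective _ real_inj

end ChevAux

theorem local_indexR (S : Finset (Pr F)) :
    ∃ H : Subgroup Fˣ, (∀ x : Fˣ, x ∈ H ↔ (∀ v ∈ S, SplitAt v (x : F)) ∧
      ∀ φ : F →+* ℝ, 0 < φ x) ∧ H.index ≠ 0 ∧ H.index ≤ 4 ^ (Units.rank F + 1 + S.card) := by
  classical
  obtain ⟨H, H1, H2, H3⟩ := local_index S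
  have := ChevAux.finite_real (F := F)
  let _ : Fintype (F →+* ℝ) := Fintype.ofFinite _
  have hne : ∀ φ : F →+* ℝ, (ChevAux.Pos φ).index ≠ 0 := fun φ h => by
    have := ChevAux.index_Pos φ
    rw [h] at this
    simp at this
  refine ⟨H ⊓ ⨅ φ : F →+* ℝ, ChevAux.Pos φ, fun x => ?_,
    Subgroup.index_inf_ne_zero H2 (Subgroup.index_iInf_ne_zero hne), ?_⟩
  · simp only [Subgroup.mem_inf, H1, Subgroup.mem_iInf, ChevAux.mem_Pos]
  · have e1 : (⨅ φ : F →+* ℝ, ChevAux.Pos φ).index ≤ 2 ^ InfinitePlace.nrRealPlaces F := by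
      refine (Subgroup.index_iInf_le _).trans ?_
      refine (Finset.prod_le_pow_card _ _ 2 fun φ _ =>
        Nat.le_of_dvd two_pos (ChevAux.index_Pos φ)).trans ?_
      refine Nat.pow_le_pow_right two_pos ?_
      rw [Finset.card_univ, ← Nat.card_eq_fintype_card]
      exact ChevAux.card_real
    refine Subgroup.index_inf_le.trans ((Nat.mul_le_mul H3 e1).trans (le_of_eq ?_))
    have h1 := InfinitePlace.card_eq_nrRealPlaces_add_nrComplexPlaces F
    have h2 := InfinitePlace.card_add_two_mul_card_eq_rank F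
    have h3 : 0 < Fintype.card (InfinitePlace F) := Fintype.card_pos
    rw [show (4 : ℕ) = 2 ^ 2 from rfl, ← pow_mul, ← pow_mul, ← pow_add, ← pow_add, Units.rank]
    congr 1
    omega

end Pool.Agent.P.MP_3c2f8c_gt
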