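import Pool.Agent.P.MP_3c2f8c_gt.NT.Defs
import Pool.Agent.P.MP_9ec3f0_nt.SY.Hasse

/-! NT-6: the first inequality with real places. -/

namespace Pool.Agent.P.MP_3c2f8c_gt

open Matrix NumberField IsDedekindDomain
open Pool.Agent.P.MP_9ec3f0_nt.SY

variable {F : Type} [Field F] [NumberField F]

namespace HerbAux

open InfinitePlace in
theorem neg_of_ram {M : Type} [Field M] [NumberField M] [Algebra F M] (Q : Quad F M)
    {v : InfinitePlace F} (h : ¬ v.IsUnramifiedIn M) :
    ∃ hv : v.IsReal, embedding_of_isReal hv Q.a < 0 := by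
  unfold IsUnramifiedIn at h
  push Not at h
  obtain ⟨w, rfl, hw⟩ := h
  obtain ⟨h1, h2⟩ := not_isUnramified_iff.1 hw
  refine ⟨h2, ?_⟩
  by_contra hc
  push Not at hc
  apply isComplex_iff.1 h1
  have e : ∀ x : F, w.embedding (algebraMap F M x) = (embedding_of_isReal h2 x : ℝ) := by
    intro x
    rw [embedding_of_isReal_apply, comap_embedding_of_isReal _ h2]
    rfl
  have e2 : w.embedding Q.r ^ 2 = ((Real.sqrt (embedding_of_isReal h2 Q.a) : ℝ) : ℂ) ^ 2 := by
    rw [← map_pow, Q.r_sq, e, ← Complex.ofReal_pow, Real.sq_sqrt hc]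
  have e3 : (starRingEnd ℂ) (w.embedding Q.r) = w.embedding Q.r := by
    rcases sq_eq_sq_iff_eq_or_eq_neg.1 e2 with h | h
    · rw [h, Complex.conj_ofReal]
    · rw [h, map_neg, Complex.conj_ofReal]
  rw [ComplexEmbedding.isReal_iff]
  ext x
  obtain ⟨α, β, rfl⟩ := Q.exists_coords x
  rw [ComplexEmbedding.conjugate_coe_eq, map_add, map_mul, e, e, map_add, map_mul, e3,
    Complex.conj_ofReal, Complex.conj_ofReal]

open InfinitePlace in
theorem rank_le {M : Type} [Field M] [NumberField M] [Algebra F M] (Q : Quad F M) :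
    2 * Units.rank F + 1 ≤ Units.rank M + Nat.card {φ : F →+* ℝ // φ Q.a < 0} := by
  classical
  have := Q.isGalois
  have h1 := card_eq_card_isUnramifiedIn F M
  rw [Q.finrank_eq] at h1
  have h2 := Finset.card_add_card_compl
    (Finset.univ.filter fun w : InfinitePlace F => w.IsUnramifiedIn M)
  set C := (Finset.univ.filter fun w : InfinitePlace F => w.IsUnramifiedIn M)ᶜ with hC
  have hm : ∀ v : C, ¬ (v : InfinitePlace F).IsUnramifiedIn M := fun v => by
    have := v.2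
    simpa [hC] using this
  let f : C → {φ : F →+* ℝ // φ Q.a < 0} := fun v =>
    ⟨embedding_of_isReal (neg_of_ram Q (hm v)).1, (neg_of_ram Q (hm v)).2⟩
  have hf : Function.Injective f := by
    intro v v' e
    have e1 : embedding_of_isReal (neg_of_ram Q (hm v)).1
        = embedding_of_isReal (neg_of_ram Q (hm v')).1 := congrArg Subtype.val e
    apply Subtype.ext
    ext x
    rw [← norm_embedding_of_isReal (neg_of_ram Q (hm v)).1,
      ← norm_embedding_of_isReal (neg_of_ram Q (hm v')).1, e1]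
  have h3 := Nat.card_le_card_of_injective f hf
  rw [Nat.card_eq_fintype_card, Fintype.card_coe] at h3
  have h4 : 0 < Fintype.card (InfinitePlace F) := Fintype.card_pos
  have h5 : 0 < Fintype.card (InfinitePlace M) := Fintype.card_pos
  unfold Units.rank
  omega

theorem val_nat (v : Pr F) (k : ℕ) : v.valuation F (k : F) ≤ 1 := by
  induction k with
  | zero => simp
  | succ k ih =>
    rw [Nat.cast_succ]
    exact ((v.valuation F).map_add _ _).trans (max_le ih (by rw [map_one]))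

theorem exists_pos (S : Finset (Pr F)) (w0 : Pr F) (hw0 : w0 ∉ S) :
    ∃ μ : F, μ ≠ 0 ∧ ord w0 μ = -1 ∧ (∀ w ∈ S, w.valuation F μ < 1) ∧
      ∀ φ : F →+* ℝ, 0 ≤ φ μ := by
  classical
  obtain ⟨μ, hμ0, hμ⟩ := exists_ord_eq (insert w0 S) (fun w => if w = w0 then -1 else 1)
  obtain ⟨y, hy0, hy⟩ := exists_ord_eq (insert w0 S) (fun _ => 1)
  have hμ1 : ord w0 μ = -1 := by
    simpa using hμ w0 (Finset.mem_insert_self _ _)
  have hμ2 : ∀ w ∈ S, ord w μ = 1 := by
    intro w hw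
    have hne : w ≠ w0 := fun e => hw0 (e ▸ hw)
    simpa [hne] using hμ w (Finset.mem_insert_of_mem hw)
  obtain ⟨C, hC⟩ := Finite.bddAbove_range fun φ : F →+* ℝ => -φ μ / φ y ^ 2
  obtain ⟨k, hk⟩ := exists_nat_ge C
  have hz : ∀ w ∈ insert w0 S, w.valuation F ((k : F) * y ^ 2) < 1 := by
    intro w hw
    rw [map_mul]
    refine lt_of_le_of_lt (mul_le_of_le_one_left' (val_nat w k)) ?_
    rw [val_lt_one_iff w (pow_ne_zero 2 hy0), ord_pow, hy w hw]
    norm_num
  have hlt : w0.valuation F ((k : F) * y ^ 2) < w0.valuation F μ := by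
    refine (hz w0 (Finset.mem_insert_self _ _)).trans ?_
    rw [← not_le, val_le_one_iff w0 hμ0, hμ1]
    norm_num
  have he : w0.valuation F (μ + k * y ^ 2) = w0.valuation F μ :=
    Valuation.map_add_eq_of_lt_left _ hlt
  have ho : ord w0 (μ + k * y ^ 2) = -1 := by
    rw [← hμ1]
    unfold ord
    rw [he]
  refine ⟨μ + k * y ^ 2, ?_, ho, fun w hw => ?_, fun φ => ?_⟩
  · intro e
    rw [e] at ho
    simp [ord] at ho
  · refine lt_of_le_of_lt ((w.valuation F).map_add _ _)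
      (max_lt ?_ (hz w (Finset.mem_insert_of_mem hw)))
    rw [val_lt_one_iff w hμ0, hμ2 w hw]
    norm_num
  · have a1 : -φ μ / φ y ^ 2 ≤ k := (hC ⟨φ, rfl⟩).trans hk
    have a2 : 0 < φ y ^ 2 := by
      have : φ y ≠ 0 := (map_ne_zero φ).2 hy0
      positivity
    rw [div_le_iff₀ a2] at a1
    rw [map_add, map_mul, map_natCast, map_pow]
    linarith

open Pool.Agent.P.MP_9ec3f0_nt.SY.HerbAux Finset Module in
theorem lemmaA0 {M : Type} [Field M] [NumberField M] [Algebra F M]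
    (Q : Quad F M) (S : Finset (Pr F)) (hS : ClassGen S)
    (hunr : ∀ w : Pr M, dn F w ∉ S → UnrP F w) (T : Finset (Pr M))
    (hT : ∀ w : Pr M, dn F w ∈ S → Fixes Q.σ w → w ∈ T) (X : Finset F)
    (hX : ∀ x ∈ X, x ≠ 0 ∧ ∀ v, v ∉ S → ord v x = 0)
    (hne : ∀ x ∈ X, ∀ y ∈ X, x ≠ y → ¬ ∃ z : M, z * Q.σ z = algebraMap F M (x / y)) :
    2 * X.card ≤ 2 ^ (T.card + Nat.card {φ : F →+* ℝ // φ Q.a < 0}) := by
  classical
  set SM : Finset (Pr M) := (finite_above M S).toFinset with hSMdef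
  have hSM : ∀ w, w ∈ SM ↔ dn F w ∈ S := fun w => by
    rw [hSMdef, Set.Finite.mem_toFinset]
    rfl
  let U : Subgroup Mˣ := SU SM
  have hmemU : ∀ u : Mˣ, u ∈ U ↔ ∀ w : Pr M, dn F w ∉ S → ord w (u : M) = 0 := fun u => by
    rw [mem_SU]
    simp only [hSM]
  let s : Mˣ →* Mˣ := Units.map (Q.σ : M →* M)
  have hs_val : ∀ u : Mˣ, ((s u : Mˣ) : M) = Q.σ u := fun u => rfl
  let N : Mˣ →* Mˣ := MonoidHom.id _ * s
  let D : Mˣ →* Mˣ := s / MonoidHom.id _
  have hN : ∀ x, N x = x * s x := fun x => rfl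
  have hD : ∀ x, D x = s x / x := fun x => rfl
  have hs : ∀ x, s (s x) = x := fun x => Units.ext (Q.σ_σ x)
  have hU : ∀ x ∈ U, s x ∈ U := by
    intro x hx
    rw [hmemU] at hx ⊢
    intro w hw
    have h1 := ord_cj Q.σ w (Q.σ x)
    rw [Q.σ_σ] at h1
    rw [hs_val, ← h1]
    exact hx _ (by rw [dn_cj]; exact hw)
  have h1 : U.map D = U ⊓ N.ker := by
    apply le_antisymm
    · rintro _ ⟨x, hx, rfl⟩
      refine ⟨?_, ?_⟩
      · rw [hD]
        exact U.div_mem (hU x hx) hx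
      · show N (D x) = 1
        rw [hN, hD, map_div, hs, div_mul_div_cancel, div_self']
    · rintro u ⟨hu, hu'⟩
      have h2 : u * s u = 1 := hu'
      have h3 : (u : M) * Q.σ u = 1 := congrArg Units.val h2
      obtain ⟨y, hy, huy, hyo⟩ := exists_su_h90 Q S hS hunr h3 ((hmemU u).1 hu)
      refine ⟨Units.mk0 y hy, (hmemU _).2 hyo, ?_⟩
      rw [hD, div_eq_iff_eq_mul]
      exact Units.ext huy.symm
  let a : Fˣ →* Mˣ := Units.map (algebraMap F M : F →* M)
  have ha_val : ∀ u : Fˣ, ((a u : Mˣ) : M) = algebraMap F M u := fun u => rfl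
  have ha : Function.Injective a := fun x y h =>
    Units.ext ((algebraMap F M).injective (congrArg Units.val h))
  have hP : (SU S).map a = U ⊓ D.ker := by
    apply le_antisymm
    · rintro _ ⟨x, hx, rfl⟩
      refine ⟨(hmemU _).2 ?_, ?_⟩
      · intro w hw
        rw [ha_val, ord_of_unrP (hunr w hw)]
        exact (mem_SU S x).1 hx _ hw
      · show D (a x) = 1
        rw [hD, div_eq_one]
        exact Units.ext (Q.σ.commutes x)
    · rintro u ⟨hu, hu'⟩
      have h2 : D u = 1 := hu'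
      rw [hD, div_eq_one] at h2
      obtain ⟨α, hα⟩ := (Q.fixed_iff u).1 (congrArg Units.val h2)
      have hα0 : α ≠ 0 := by
        rintro rfl
        rw [map_zero] at hα
        exact u.ne_zero hα.symm
      refine ⟨Units.mk0 α hα0, (mem_SU S _).2 ?_, Units.ext hα⟩
      intro v hv
      obtain ⟨w, rfl⟩ := exists_above M v
      rw [← ord_of_unrP (hunr w hv)]
      exact hα ▸ (hmemU u).1 hu w hv
  have : Module.Finite ℤ (Additive U) := su_finite SM
  have : Module.Finite ℤ (Additive (U ⊓ D.ker : Subgroup Mˣ)) := finite_of_le inf_le_left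
  have : Module.Finite ℤ (Additive (U ⊓ N.ker : Subgroup Mˣ)) := finite_of_le inf_le_left
  have hneg : (-1 : Mˣ) ∈ U := (hmemU _).2 fun w _ => by
    rw [Units.val_neg, Units.val_one, ord_neg, ord_one]
  have hsneg : s (-1) = -1 := Units.ext (by rw [hs_val]; simp)
  have hnegD : (-1 : Mˣ) ∈ U ⊓ D.ker := ⟨hneg, by
    show D (-1) = 1
    rw [hD, hsneg, div_self']⟩
  have hnegN : (-1 : Mˣ) ∈ U ⊓ N.ker := ⟨hneg, by
    show N (-1) = 1
    rw [hN, hsneg, neg_mul_neg, one_mul]⟩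
  have key := herb s N D hs hN hD U hU h1
  rw [relIndex_sq, relIndex_sq, index_sq _ hnegD, index_sq _ hnegN] at key
  have r1 := finrank_add D U
  rw [h1] at r1
  have r2 : finrank ℤ (Additive U) = Units.rank M + SM.card := su_finrank SM
  have r3 : finrank ℤ (Additive (U ⊓ D.ker : Subgroup Mˣ)) = Units.rank F + S.card := by
    rw [← hP, ← su_finrank S]
    exact ((MulEquiv.toAdditive ((SU S).equivMapOfInjective a ha)).toIntLinearEquiv).finrank_eq.symm
  have r4 := rank_le Q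
  generalize Nat.card {φ : F →+* ℝ // φ Q.a < 0} = t at r4 ⊢
  have r5 := two_mul_card_le Q S SM T hSM hT
  set I := (U.map N).relIndex (U ⊓ D.ker) with hI
  have hI0 : I ≠ 0 := by
    rintro h0
    rw [h0, mul_zero] at key
    exact (pow_ne_zero _ two_ne_zero) key.symm
  have hIle : 2 * I ≤ 2 ^ (T.card + t) := by
    have h5 : 2 ^ (finrank ℤ (Additive (U ⊓ N.ker : Subgroup Mˣ)) + 1) * (2 * I)
        ≤ 2 ^ (finrank ℤ (Additive (U ⊓ N.ker : Subgroup Mˣ)) + 1) * 2 ^ (T.card + t) := by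
      rw [mul_left_comm, key, ← pow_add, ← pow_succ']
      exact Nat.pow_le_pow_right two_pos (by omega)
    exact Nat.le_of_mul_le_mul_left h5 (pow_pos two_pos _)
  refine le_trans (Nat.mul_le_mul_left 2 ?_) hIle
  have hXP : ∀ x : X, a (Units.mk0 (x : F) (hX x x.2).1) ∈ U ⊓ D.ker := fun x => by
    rw [← hP]
    exact ⟨_, (mem_SU S _).2 (hX x x.2).2, rfl⟩
  let φ : X → (U ⊓ D.ker : Subgroup Mˣ) ⧸ (U.map N).subgroupOf (U ⊓ D.ker) :=
    fun x => QuotientGroup.mk ⟨_, hXP x⟩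
  have hφ : Function.Injective φ := by
    intro x y hxy
    by_contra hne'
    have h2 := QuotientGroup.eq.1 hxy
    rw [Subgroup.mem_subgroupOf] at h2
    obtain ⟨z, -, hz⟩ := h2
    refine hne y y.2 x x.2 (fun h => hne' (Subtype.ext h).symm) ⟨z, ?_⟩
    have h3 := congrArg Units.val hz
    rw [hN] at h3
    rw [map_div₀, div_eq_inv_mul]
    simpa [hs_val, ha_val] using h3
  have : Finite ((U ⊓ D.ker : Subgroup Mˣ) ⧸ (U.map N).subgroupOf (U ⊓ D.ker)) :=
    Nat.finite_of_card_ne_zero hI0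
  have := Nat.card_le_card_of_injective φ hφ
  rwa [Nat.card_eq_fintype_card, Fintype.card_coe] at this

end HerbAux

open HasseAux in
/-- The Herbrand quotient bound with real places. -/
theorem lemmaAR {M : Type} [Field M] [NumberField M] [Algebra F M] (Q : Quad F M)
    (S : Finset (Pr F)) (hS : ClassGen S) (hunr : ∀ w : Pr M, dn F w ∉ S → UnrP F w)
    (R : Finset (Pr F)) (hR : ∀ w : Pr M, dn F w ∈ S → Fixes Q.σ w → dn F w ∈ R)
    {A B : Subgroup Fˣ} (hB : B ≤ SU S) (hA : ∀ x ∈ B, x ∈ Nm Q → x ∈ A)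
    (h0 : A.relIndex B ≠ 0) :
    2 * A.relIndex B ≤ 2 ^ (R.card + Nat.card {φ : F →+* ℝ // φ Q.a < 0}) := by
  classical
  obtain ⟨P, p1, p2⟩ := fixed_card Q R
  obtain ⟨X, x1, x2, x3⟩ := exists_reps h0
  have := HerbAux.lemmaA0 Q S hS hunr P (fun w h1 h2 => p2 w (hR w h1 h2) h2) (X.image Units.val)
    (fun x hx => by
      obtain ⟨y, hy, rfl⟩ := Finset.mem_image.1 hx
      exact ⟨y.ne_zero, (mem_SU S y).1 (hB (x2 y hy))⟩)
    (fun x hx y hy hne hz => by
      obtain ⟨x, hx', rfl⟩ := Finset.mem_image.1 hx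
      obtain ⟨y, hy', rfl⟩ := Finset.mem_image.1 hy
      refine x3 x hx' y hy' (fun e => hne (by rw [e])) (hA _ (B.div_mem (x2 x hx') (x2 y hy')) ?_)
      obtain ⟨z, hz⟩ := hz
      exact ⟨z, by rw [hz, Units.val_div_eq_div_val]⟩)
  rw [Finset.card_image_of_injective _ Units.val_injective, x1] at this
  exact this.trans (Nat.pow_le_pow_right two_pos (Nat.add_le_add_right p1 _))

theorem exists_inertR (u : F) (hu : ¬ IsSquare u) (S : Finset (Pr F)) :
    ∃ w : Pr F, w ∉ S ∧ w.valuation F 2 = 1 ∧ w.valuation F u = 1 ∧ ¬ SplitAt w u := by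
  classical
  by_contra hcon
  push Not at hcon
  have hu0 : u ≠ 0 := by
    rintro rfl
    exact hu ⟨0, by simp⟩
  have h20 : (2 : F) ≠ 0 := two_ne_zero
  set S' : Finset (Pr F) := S ∪ (finite_ord h20).toFinset ∪ (finite_ord hu0).toFinset with hS'
  have hout : ∀ w, w ∉ S' → w ∉ S ∧ ord w (2 : F) = 0 ∧ ord w u = 0 := by
    intro w hw
    simp only [hS', Finset.mem_union, Set.Finite.mem_toFinset, Set.mem_ofPred_eq, not_or,
      not_not] at hw
    exact ⟨hw.1.1, hw.1.2, hw.2⟩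
  have hsplit : ∀ w, w ∉ S' → SplitAt w u := by
    intro w hw
    obtain ⟨a, b, c⟩ := hout w hw
    exact hcon w a ((val_eq_one_iff w h20).2 b) ((val_eq_one_iff w hu0).2 c)
  obtain ⟨w0, hw0⟩ := InertAux.exists_notMem S'
  obtain ⟨μ, hμ0, hμ1, hμ2, hμ3⟩ := HerbAux.exists_pos S' w0 hw0
  obtain ⟨-, h2w, huw⟩ := hout w0 hw0
  have h4μ0 : 4 * μ ≠ 0 := mul_ne_zero (by norm_num) hμ0
  have h4μ : ord w0 (4 * μ) = -1 := by
    rw [ord_mul w0 (by norm_num) hμ0, show (4 : F) = 2 ^ 2 by norm_num, ord_pow, h2w, hμ1]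
    simp
  have hlt : w0.valuation F 1 < w0.valuation F (4 * μ) := by
    rw [← not_le, val_le_val_iff w0 h4μ0 one_ne_zero, ord_one, h4μ]
    norm_num
  have hq : w0.valuation F (1 + 4 * μ) = w0.valuation F (4 * μ) :=
    Valuation.map_add_eq_of_lt_right _ hlt
  set q : F := 1 + 4 * μ with hqdef
  have hq1 : ord w0 q = -1 := by
    rw [← h4μ]
    unfold ord
    rw [hq]
  have hq0 : q ≠ 0 := by
    intro e
    rw [e] at hq1
    simp [ord] at hq1
  have hn1 : ¬ IsSquare (u * q) := by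
    apply InertAux.not_isSquare_of_odd w0
    rw [ord_mul w0 hu0 hq0, huw, hq1]
    decide
  have hn2 : ¬ IsSquare (u * (u * q)) := by
    apply InertAux.not_isSquare_of_odd w0
    rw [ord_mul w0 hu0 (mul_ne_zero hu0 hq0), ord_mul w0 hu0 hq0, huw, hq1]
    decide
  obtain ⟨E, _, _, _, Q1, hQ1⟩ := exists_quad_ext F (u * q) hn1
  have hn3 : ¬ IsSquare (algebraMap F E u) := by
    rw [Q1.isSquare_iff, hQ1]
    rintro (h | h)
    · exact hu h
    · exact hn2 h
  obtain ⟨E', _, _, _, Q2, hQ2⟩ := exists_quad_ext E (algebraMap F E u) hn3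
  have hall : ∀ v : Pr E, SplitAt v (algebraMap F E u) := by
    intro v
    by_cases hv : dn F v ∈ S'
    · have hqE : algebraMap F E q ≠ 0 := by simpa using hq0
      refine ⟨Q1.r / algebraMap F E q, algebraMap F E μ, div_ne_zero Q1.r_ne hqE, ?_, ?_⟩
      · have e : (1 : E) + 4 * algebraMap F E μ = algebraMap F E q := by
          rw [hqdef, map_add, map_mul, map_one, map_ofNat]
        rw [e, div_pow, Q1.r_sq, hQ1, map_mul]
        field_simp
      · rw [val_algebraMap_lt_one_iff]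
        exact hμ2 _ hv
    · exact (hsplit _ hv).algebraMap
  have hnf : ∀ w : Pr E', ¬ Fixes Q2.σ w := fun w =>
    Q2.not_fixes_of_splitAt (hQ2 ▸ hall _)
  obtain ⟨T, hT⟩ := exists_classGen E
  have := HerbAux.lemmaA0 Q2 T hT (fun w _ => Q2.unrP_of_not_fixes (hnf w)) ∅
    (fun w _ h => (hnf w h).elim) {1}
    (by
      intro x hx
      rw [Finset.mem_singleton.1 hx]
      exact ⟨one_ne_zero, fun v _ => ord_one v⟩)
    (by
      intro x hx y hy hxy
      exact (hxy ((Finset.mem_singleton.1 hx).trans (Finset.mem_singleton.1 hy).symm)).elim)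
  have hE : IsEmpty {φ : E →+* ℝ // φ Q2.a < 0} := by
    refine ⟨fun ⟨φ, a1⟩ => ?_⟩
    rw [hQ2] at a1
    have a2 := hμ3 (φ.comp (algebraMap F E))
    have a3 : φ Q1.r ^ 2 = φ (algebraMap F E u) * (1 + 4 * φ (algebraMap F E μ)) := by
      rw [← map_pow, Q1.r_sq, hQ1, hqdef]
      simp only [map_mul, map_add, map_one, map_ofNat]
    rw [RingHom.comp_apply] at a2
    nlinarith [sq_nonneg (φ Q1.r)]
  rw [Nat.card_of_isEmpty] at this
  simp at this

end Pool.Agent.P.MP_3c2f8c_gt
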