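import Pool.Agent.P.MP_3c2f8c_gt.NT.Alg

/-! NT-2: local fields, squares and units. -/

namespace Pool.Agent.P.MP_3c2f8c_gt

open Matrix

namespace Local1Aux

section Fin

variable {κ : Type} [Field κ] [Finite κ]

theorem fin_rho : ∃ ρ : κ, ∀ t, t ^ 2 + t ≠ ρ := by
  by_contra h
  push Not at h
  have h1 : Function.Injective fun t : κ => t ^ 2 + t :=
    Finite.injective_iff_surjective.2 h
  have h2 : (0 : κ) = -1 := h1 (by simp)
  simp at h2

theorem fin_norm (h2 : (2 : κ) ≠ 0) {a : κ} (ha : a ≠ 0) (b : κ) :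
    ∃ x y : κ, x ^ 2 - a * y ^ 2 = b := by
  have := Fintype.ofFinite κ
  have hc : ringChar κ ≠ 2 := fun h => h2 (by
    have := ringChar.Nat.cast_ringChar (R := κ)
    rw [h] at this
    exact_mod_cast this)
  obtain ⟨x, y, h⟩ := FiniteField.exists_root_sum_quadratic
    (f := Polynomial.X ^ 2 - Polynomial.C b) (g := Polynomial.C (-a) * Polynomial.X ^ 2)
    (Polynomial.degree_X_pow_sub_C (by norm_num) b)
    (Polynomial.degree_C_mul_X_pow 2 (neg_ne_zero.2 ha)) (FiniteField.odd_card_of_char_ne_two hc)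
  refine ⟨x, y, ?_⟩
  simp only [Polynomial.eval_sub, Polynomial.eval_pow, Polynomial.eval_X, Polynomial.eval_C,
    Polynomial.eval_mul] at h
  linear_combination h

theorem fin_nonsq {a b : κ} (ha : ¬ IsSquare a) (hb : ¬ IsSquare b) : IsSquare (a * b) := by
  classical
  have := Fintype.ofFinite κ
  have a0 : a ≠ 0 := fun h => ha (h ▸ IsSquare.zero)
  have b0 : b ≠ 0 := fun h => hb (h ▸ IsSquare.zero)
  rw [← quadraticChar_one_iff_isSquare (mul_ne_zero a0 b0), map_mul,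
    quadraticChar_neg_one_iff_not_isSquare.2 ha, quadraticChar_neg_one_iff_not_isSquare.2 hb]
  norm_num

theorem fin_sq (h2 : (2 : κ) = 0) (a : κ) : IsSquare a := by
  have : CharP κ 2 := CharTwo.of_one_ne_zero_of_two_eq_zero one_ne_zero h2
  exact FiniteField.isSquare_of_char_two (ringChar.eq κ 2) a

theorem fin_as (h2 : (2 : κ) = 0) {ρ : κ} (hρ : ∀ t, t ^ 2 + t ≠ ρ) (μ : κ) :
    (∃ t, t ^ 2 + t = μ) ∨ ∃ t, t ^ 2 + t = μ + ρ := by
  let f : κ →+ κ := AddMonoidHom.mk' (fun t => t ^ 2 + t) fun s t => by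
    linear_combination s * t * h2
  have hk : Nat.card f.ker = 2 := by
    rw [Nat.card_eq_two_iff' (0 : f.ker)]
    have hm : (-1 : κ) ^ 2 + -1 = 0 := by ring
    refine ⟨⟨-1, hm⟩, fun h => by simpa using congrArg Subtype.val h,
      fun y hy => Subtype.ext ?_⟩
    have h1 : (y : κ) ^ 2 + y = 0 := y.2
    have h0 : (y : κ) ≠ 0 := fun h => hy (Subtype.ext h)
    have h3 : (y : κ) * (y + 1) = 0 := by linear_combination h1
    exact eq_neg_of_add_eq_zero_left ((mul_eq_zero.1 h3).resolve_left h0)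
  have hi : f.range.index = 2 := by rw [AddSubgroup.index_range, hk]
  by_cases hμ : μ ∈ f.range
  · exact Or.inl hμ
  · refine Or.inr ((AddSubgroup.add_mem_iff_of_index_two hi).2 ⟨fun h => absurd h hμ, ?_⟩)
    rintro ⟨t, ht⟩
    exact absurd ht (hρ t)

end Fin

variable {E : Type} [Field E]

theorem exists_res (L : LF E) : ∃ (κ : Type) (_ : Field κ) (_ : Finite κ)
    (φ : L.v.valuationSubring →+* κ), Function.Surjective φ ∧ ∀ x, φ x = 0 ↔ L.v x < 1 := by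
  have h : ∀ x : L.v.valuationSubring, IsLocalRing.residue _ x = 0 ↔ L.v x < 1 := fun x => by
    rw [IsLocalRing.residue_eq_zero_iff, Valuation.mem_maximalIdeal_iff]
  refine ⟨IsLocalRing.ResidueField L.v.valuationSubring, inferInstance, ?_,
    IsLocalRing.residue _, IsLocalRing.residue_surjective, h⟩
  obtain ⟨s, hs, hx⟩ := L.fin
  refine Finite.of_surjective (fun r : s => IsLocalRing.residue L.v.valuationSubring
    ⟨r.1, hs r.1 r.2⟩) fun z => ?_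
  obtain ⟨x, rfl⟩ := IsLocalRing.residue_surjective z
  obtain ⟨r, hr, hlt⟩ := hx x.1 x.2
  refine ⟨⟨r, hr⟩, (sub_eq_zero.1 ?_).symm⟩
  rw [← map_sub, h]
  exact hlt

theorem v_two_le (L : LF E) : L.v 2 ≤ 1 := by
  have := L.v.map_add_le (x := 1) (y := 1) L.v.map_one.le L.v.map_one.le
  rwa [one_add_one_eq_two] at this

theorem res_norm (L : LF E) (h2 : L.v 2 = 1) {a b : E} (ha : L.v a = 1) (hb : L.v b ≤ 1) :
    ∃ x y : E, L.v (x ^ 2 - a * y ^ 2 - b) < 1 := by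
  obtain ⟨κ, _, _, φ, hs, h0⟩ := exists_res L
  have e2 : (2 : κ) ≠ 0 := fun h => by
    have := (h0 2).1 (by rw [map_ofNat, h])
    exact this.ne h2
  obtain ⟨x, y, h⟩ := fin_norm e2 (a := φ ⟨a, ha.le⟩) (fun h => ((h0 _).1 h).ne ha) (φ ⟨b, hb⟩)
  obtain ⟨x, rfl⟩ := hs x
  obtain ⟨y, rfl⟩ := hs y
  refine ⟨x, y, (h0 (x ^ 2 - ⟨a, ha.le⟩ * y ^ 2 - ⟨b, hb⟩)).1 ?_⟩
  rw [map_sub, map_sub, map_mul, map_pow, map_pow, h, sub_self]

theorem res_sq (L : LF E) (h2 : L.v 2 < 1) {a : E} (ha : L.v a ≤ 1) :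
    ∃ x : E, L.v (a - x ^ 2) < 1 := by
  obtain ⟨κ, _, _, φ, hs, h0⟩ := exists_res L
  have e2 : (2 : κ) = 0 := by
    rw [← map_ofNat φ]
    exact (h0 2).2 h2
  obtain ⟨x, h⟩ := fin_sq e2 (φ ⟨a, ha⟩)
  obtain ⟨x, rfl⟩ := hs x
  refine ⟨x, (h0 (⟨a, ha⟩ - x ^ 2)).1 ?_⟩
  rw [map_sub, map_pow, h, sq, sub_self]

theorem res_nonsq (L : LF E) {a b : E} (ha : L.v a ≤ 1) (hb : L.v b ≤ 1) :
    (∃ x : E, L.v (a - x ^ 2) < 1) ∨ (∃ x : E, L.v (b - x ^ 2) < 1) ∨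
      ∃ x : E, L.v (a * b - x ^ 2) < 1 := by
  obtain ⟨κ, _, _, φ, hs, h0⟩ := exists_res L
  have key : ∀ c : L.v.valuationSubring, IsSquare (φ c) → ∃ x : E, L.v (c - x ^ 2) < 1 := by
    rintro c ⟨x, h⟩
    obtain ⟨x, rfl⟩ := hs x
    refine ⟨x, (h0 (c - x ^ 2)).1 ?_⟩
    rw [map_sub, map_pow, h, sq, sub_self]
  by_cases h1 : IsSquare (φ ⟨a, ha⟩)
  · exact Or.inl (key _ h1)
  by_cases h2 : IsSquare (φ ⟨b, hb⟩)
  · exact Or.inr (Or.inl (key _ h2))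
  exact Or.inr (Or.inr (key (⟨a, ha⟩ * ⟨b, hb⟩) (by rw [map_mul]; exact fin_nonsq h1 h2)))

theorem res_rho (L : LF E) : ∃ ρ : E, L.v ρ ≤ 1 ∧ (∀ t, L.v t ≤ 1 → L.v (t ^ 2 + t - ρ) = 1) ∧
    (L.v 2 < 1 → ∀ μ, L.v μ ≤ 1 → (∃ t, L.v t ≤ 1 ∧ L.v (μ - (t ^ 2 + t)) < 1) ∨
      ∃ t, L.v t ≤ 1 ∧ L.v (μ + ρ - (t ^ 2 + t)) < 1) := by
  obtain ⟨κ, _, _, φ, hs, h0⟩ := exists_res L
  obtain ⟨ρ, hρ⟩ := fin_rho (κ := κ)
  obtain ⟨ρ, rfl⟩ := hs ρ
  refine ⟨ρ, ρ.2, fun t ht => ?_, fun h2 μ hμ => ?_⟩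
  · obtain ⟨t, rfl⟩ : ∃ s : L.v.valuationSubring, (s : E) = t := ⟨⟨t, ht⟩, rfl⟩
    have h1 : L.v ((t : E) ^ 2 + t - ρ) ≤ 1 :=
      L.v.map_sub_le (L.v.map_add_le (by rw [map_pow]; exact pow_le_one₀ zero_le ht) ht) ρ.2
    refine h1.eq_of_not_lt fun h => hρ (φ t) ?_
    have := (h0 (t ^ 2 + t - ρ)).2 h
    rwa [map_sub, map_add, map_pow, sub_eq_zero] at this
  · have e2 : (2 : κ) = 0 := by
      rw [← map_ofNat φ]
      exact (h0 2).2 h2
    rcases fin_as e2 hρ (φ ⟨μ, hμ⟩) with ⟨t, h⟩ | ⟨t, h⟩ <;> obtain ⟨t, rfl⟩ := hs t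
    · refine Or.inl ⟨t, t.2, (h0 (⟨μ, hμ⟩ - (t ^ 2 + t))).1 ?_⟩
      rw [map_sub, map_add, map_pow, h, sub_self]
    · refine Or.inr ⟨t, t.2, (h0 (⟨μ, hμ⟩ + ρ - (t ^ 2 + t))).1 ?_⟩
      rw [map_sub, map_add, map_add, map_pow, h, sub_self]

theorem v_eq_of_sub_lt (L : LF E) {a b : E} (ha : L.v a = 1) (h : L.v (a - b) < 1) :
    L.v b = 1 := by
  have := L.v.map_sub_eq_of_lt_left (x := a) (y := a - b) (by rwa [ha])
  rwa [sub_sub_cancel, ha] at this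

theorem v_eq_of_sq (L : LF E) {x : E} (h : L.v (x ^ 2) = 1) : L.v x = 1 := by
  rw [map_pow] at h
  exact (pow_eq_one_iff_of_nonneg zero_le two_ne_zero).1 h

theorem v_four (L : LF E) : L.v 4 = L.v 2 ^ 2 := by
  rw [← map_pow]
  norm_num

theorem v_poly (L : LF E) {ρ t : E} (hρ : L.v ρ ≤ 1) (ht : 1 < L.v t) :
    L.v (t ^ 2 + t - ρ) = L.v t ^ 2 := by
  have h1 : L.v t < L.v t ^ 2 := by
    rw [sq]
    exact lt_mul_of_one_lt_right (zero_lt_one.trans ht) ht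
  rw [add_sub_assoc, L.v.map_add_eq_of_lt_left, map_pow]
  rw [map_pow]
  exact L.v.map_sub_lt h1 (hρ.trans_lt (ht.trans h1))

end Local1Aux

open Local1Aux

variable {E : Type} [Field E] [CharZero E]

theorem LF.isSquare_of_lt (L : LF E) {x : E} (h : L.v (x - 1) < L.v 4) : IsSquare x := by
  have h4 : (0 : WithZero (Multiplicative ℤ)) < L.v 4 := zero_le.trans_lt h
  obtain ⟨y, hy⟩ := L.hensel ((x - 1) / 4) (by rwa [map_div₀, div_lt_one₀ h4])
  exact ⟨1 + 2 * y, by linear_combination (-4) * hy⟩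

namespace Local1Aux

theorem sq_of_close (L : LF E) {a x : E} (hx : L.v x = 1) (h : L.v (a - x ^ 2) < L.v 4) :
    IsSquare a := by
  have x0 : x ≠ 0 := (Valuation.ne_zero_iff _).1 (by rw [hx]; exact one_ne_zero)
  obtain ⟨c, hc⟩ := L.isSquare_of_lt (x := a / x ^ 2) (by
    rwa [div_sub_one (pow_ne_zero 2 x0), map_div₀, map_pow, hx, one_pow, div_one])
  refine ⟨c * x, ?_⟩
  field_simp at hc
  linear_combination hc

omit [CharZero E] in
theorem defect_step (L : LF E) (h2 : L.v 2 < 1) {u c : E} {i : ℕ} (hi : 0 < i)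
    (h4 : L.v 2 < WithZero.exp (-(i : ℤ)))
    (h : L.v (u * c ^ 2 - 1) = WithZero.exp (-((2 * i : ℕ) : ℤ))) :
    ∃ c' : E, L.v (u * c' ^ 2 - 1) < WithZero.exp (-((2 * i : ℕ) : ℤ)) := by
  have hπ : L.v (L.π ^ i) = WithZero.exp (-(i : ℤ)) := by
    rw [map_pow, L.v_π, ← WithZero.exp_nsmul]
    simp
  have e2 : WithZero.exp (-((2 * i : ℕ) : ℤ)) =
      WithZero.exp (-(i : ℤ)) * WithZero.exp (-(i : ℤ)) := by
    rw [← WithZero.exp_add]
    congr 1
    push_cast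
    ring
  have π0 : L.π ^ i ≠ 0 := (Valuation.ne_zero_iff _).1 (by rw [hπ]; exact WithZero.exp_ne_zero)
  have hε : L.v ((u * c ^ 2 - 1) / (L.π ^ i) ^ 2) = 1 := by
    rw [map_div₀, map_pow, hπ, h, e2, sq, div_self (by simp)]
  obtain ⟨η, hη⟩ := res_sq L h2 hε.le
  have hη1 : L.v η = 1 := v_eq_of_sq L (v_eq_of_sub_lt L hε hη)
  have hlt : L.v (L.π ^ i * η) < 1 := by
    rw [map_mul, hπ, hη1, mul_one, ← WithZero.exp_zero, WithZero.exp_lt_exp]
    omega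
  have hu : L.v (1 + L.π ^ i * η) = 1 := L.v.map_one_add_of_lt hlt
  have u0 : 1 + L.π ^ i * η ≠ 0 := (Valuation.ne_zero_iff _).1 (by rw [hu]; exact one_ne_zero)
  refine ⟨c / (1 + L.π ^ i * η), ?_⟩
  have e : u * (c / (1 + L.π ^ i * η)) ^ 2 - 1 =
      ((L.π ^ i) ^ 2 * ((u * c ^ 2 - 1) / (L.π ^ i) ^ 2 - η ^ 2) - 2 * (L.π ^ i * η)) /
        (1 + L.π ^ i * η) ^ 2 := by
    field_simp
    ring
  rw [e, map_div₀, map_pow, hu, one_pow, div_one, e2]
  refine L.v.map_sub_lt ?_ ?_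
  · rw [map_mul, map_pow, hπ, sq]
    exact mul_lt_of_lt_one_right (by simp) hη
  · rw [map_mul, map_mul, hπ, hη1, mul_one]
    exact mul_lt_mul_of_pos_right h4 WithZero.exp_pos

theorem defect (L : LF E) (h2 : L.v 2 < 1) {u : E} (hu : L.v u = 1) :
    (∃ c : E, L.v (u * c ^ 2 - 1) ≤ L.v 4) ∨ ∃ (c : E) (k : ℤ), Odd k ∧ 0 < k ∧
      L.v (u * c ^ 2 - 1) = WithZero.exp (-k) ∧ L.v 4 < WithZero.exp (-k) := by
  by_contra hcon
  rw [not_or] at hcon
  obtain ⟨hA, hB⟩ := hcon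
  have lt_le : ∀ (x : WithZero (Multiplicative ℤ)) (j : ℤ), x < WithZero.exp (-j) →
      x ≤ WithZero.exp (-(j + 1)) := fun x j h => by
    rw [← WithZero.lt_mul_exp_iff_le WithZero.exp_ne_zero, ← WithZero.exp_add]
    simpa using h
  have key : ∀ j : ℕ, ∃ c : E, L.v (u * c ^ 2 - 1) < WithZero.exp (-(j : ℤ)) := by
    intro j
    induction j with
    | zero =>
      obtain ⟨x, hx⟩ := res_sq L h2 hu.le
      have hx1 : L.v x = 1 := v_eq_of_sq L (v_eq_of_sub_lt L hu hx)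
      have x0 : x ≠ 0 := (Valuation.ne_zero_iff _).1 (by rw [hx1]; exact one_ne_zero)
      refine ⟨x⁻¹, ?_⟩
      rw [show u * x⁻¹ ^ 2 - 1 = (u - x ^ 2) / x ^ 2 by field_simp, map_div₀, map_pow, hx1]
      simpa using hx
    | succ j ih =>
      obtain ⟨c, hc⟩ := ih
      have hle : L.v (u * c ^ 2 - 1) ≤ WithZero.exp (-((j + 1 : ℕ) : ℤ)) := by
        push_cast
        exact lt_le _ _ hc
      rcases hle.lt_or_eq with h | h
      · exact ⟨c, h⟩
      have h4 : L.v 4 < WithZero.exp (-((j + 1 : ℕ) : ℤ)) := by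
        rw [← h]
        exact not_le.1 fun h' => hA ⟨c, h'⟩
      rcases Nat.even_or_odd' (j + 1) with ⟨i, hi | hi⟩
      · rw [hi] at h h4 ⊢
        refine defect_step L h2 (by omega) ?_ h
        refine lt_of_pow_lt_pow_left₀ 2 zero_le ?_
        rw [← v_four, ← WithZero.exp_nsmul]
        refine h4.trans_eq ?_
        congr 1
        simp
      · exact absurd ⟨c, ((j + 1 : ℕ) : ℤ), ⟨i, by rw [hi]; push_cast; ring⟩, by omega, h, h4⟩ hB
  have h40 : L.v 4 ≠ 0 := (Valuation.ne_zero_iff _).2 (by norm_num)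
  obtain ⟨j, hj⟩ := WithZero.exists_exp_neg_natCast_lt h40
  obtain ⟨c, hc⟩ := key j
  exact hA ⟨c, (hc.trans hj).le⟩

end Local1Aux

theorem LF.isNm_of_unit (L : LF E) (h2 : L.v 2 = 1) {a b : E} (ha : L.v a = 1) (hb : L.v b = 1) :
    IsNm a b := by
  obtain ⟨x, y, h⟩ := res_norm L h2 ha hb.le
  have b0 : b ≠ 0 := (Valuation.ne_zero_iff _).1 (by rw [hb]; exact one_ne_zero)
  have h1 : L.v ((x ^ 2 - a * y ^ 2) / b - 1) < 1 := by
    rwa [div_sub_one b0, map_div₀, hb, div_one]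
  obtain ⟨c, hc⟩ := L.isSquare_of_lt (x := (x ^ 2 - a * y ^ 2) / b)
    (by rwa [v_four, h2, one_pow])
  have c0 : c ≠ 0 := by
    rintro rfl
    rw [hc] at h1
    simp at h1
  refine ⟨x / c, y / c, ?_⟩
  field_simp at hc ⊢
  linear_combination -hc

/-- The unit of the unramified quadratic extension, and the quadratic defect of units. -/
theorem LF.exists_delta (L : LF E) : ∃ Δ : E, L.v Δ = 1 ∧ L.v (Δ - 1) ≤ L.v 4 ∧ ¬ IsSquare Δ ∧
    (∀ u, L.v u = 1 → IsNm Δ u) ∧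
    (∀ b, b ≠ 0 → IsNm Δ b → ∃ k : ℤ, L.v b = WithZero.exp (2 * k)) ∧
    ∀ u, L.v u = 1 → IsSquare u ∨ IsSquare (u * Δ) ∨ ∃ (c : E) (k : ℤ), Odd k ∧ 0 < k ∧
      L.v (u * c ^ 2 - 1) = WithZero.exp (-k) ∧ L.v 4 < WithZero.exp (-k) := by
  obtain ⟨ρ, hρ, hirr, hAS⟩ := res_rho L
  have hρ1 : L.v ρ = 1 := by simpa using hirr 0 (by simp)
  have ρ0 : ρ ≠ 0 := (Valuation.ne_zero_iff _).1 (by rw [hρ1]; exact one_ne_zero)
  have hodd : L.v 2 = 1 → ∀ x : E, ¬ L.v (1 + 4 * ρ - x ^ 2) < 1 := fun h2 x hx => by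
    have e : 1 + 4 * ρ - x ^ 2 = -(4 * (((x - 1) / 2) ^ 2 + (x - 1) / 2 - ρ)) := by ring
    rw [e, Valuation.map_neg, map_mul, v_four, h2, one_pow, one_mul] at hx
    rcases le_or_gt (L.v ((x - 1) / 2)) 1 with h | h
    · exact hx.ne (hirr _ h)
    · rw [v_poly L hρ h] at hx
      exact absurd hx (not_lt.2 (one_le_pow₀ h.le))
  have hΔ : L.v (1 + 4 * ρ) = 1 := by
    rcases (v_two_le L).lt_or_eq with h2 | h2
    · refine L.v.map_one_add_of_lt ?_
      rw [map_mul, hρ1, mul_one, v_four]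
      exact pow_lt_one₀ zero_le h2 two_ne_zero
    · refine (L.v.map_add_le L.v.map_one.le ?_).eq_of_not_lt fun h => hodd h2 0 (by simpa using h)
      rw [map_mul, hρ1, mul_one, v_four, h2, one_pow]
  have hev : ∀ x : E, x ≠ 0 → ∃ k : ℤ, L.v x ^ 2 = WithZero.exp (2 * k) := fun x hx =>
    ⟨WithZero.log (L.v x), by
      rw [two_mul, WithZero.exp_add, WithZero.exp_log ((Valuation.ne_zero_iff _).2 hx), sq]⟩
  refine ⟨1 + 4 * ρ, hΔ, ?_, ?_, fun u hu => ?_, ?_, fun u hu => ?_⟩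
  · rw [add_sub_cancel_left, map_mul, hρ1, mul_one]
  · rintro ⟨y, hy⟩
    have e : ((y - 1) / 2) ^ 2 + (y - 1) / 2 - ρ = 0 := by linear_combination (-1 / 4) * hy
    rcases le_or_gt (L.v ((y - 1) / 2)) 1 with h | h
    · have := hirr _ h
      rw [e, map_zero] at this
      exact zero_ne_one this
    · have := v_poly L hρ h
      rw [e, map_zero] at this
      exact (pow_pos (zero_lt_one.trans h) 2).ne this
  · rcases (v_two_le L).lt_or_eq with h2 | h2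
    · obtain ⟨x, hx⟩ := res_sq L h2 hu.le
      have hx1 : L.v x = 1 := v_eq_of_sq L (v_eq_of_sub_lt L hu hx)
      have x0 : x ≠ 0 := (Valuation.ne_zero_iff _).1 (by rw [hx1]; exact one_ne_zero)
      obtain ⟨t, ht⟩ := L.hensel (-(ρ * (u - x ^ 2) / x ^ 2)) (by
        rwa [Valuation.map_neg, map_div₀, map_mul, map_pow, hx1, hρ1, one_pow, one_mul, div_one])
      refine ⟨x - x * t / (2 * ρ), x * t / (2 * ρ), ?_⟩
      field_simp at ht ⊢
      linear_combination (4 * ρ) * ht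
    · exact L.isNm_of_unit h2 hΔ hu
  · rintro b hb ⟨X, Y, rfl⟩
    by_cases hY : Y = 0
    · subst hY
      obtain ⟨k, hk⟩ := hev X (by rintro rfl; simp at hb)
      exact ⟨k, by simpa using hk⟩
    have e : X ^ 2 - (1 + 4 * ρ) * Y ^ 2 =
        (2 * Y) ^ 2 * (((X - Y) / (2 * Y)) ^ 2 + (X - Y) / (2 * Y) - ρ) := by
      field_simp
      ring
    rw [e, map_mul, map_pow]
    rcases le_or_gt (L.v ((X - Y) / (2 * Y))) 1 with h | h
    · rw [hirr _ h, mul_one]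
      exact hev _ (mul_ne_zero two_ne_zero hY)
    · rw [v_poly L hρ h, ← mul_pow, ← map_mul]
      refine hev _ (mul_ne_zero (mul_ne_zero two_ne_zero hY) ?_)
      exact (Valuation.ne_zero_iff _).1 (zero_lt_one.trans h).ne'
  · rcases (v_two_le L).lt_or_eq with h2 | h2
    · rcases defect L h2 hu with ⟨c, hc⟩ | h
      swap
      · exact Or.inr (Or.inr h)
      have h40 : 0 < L.v 4 := (Valuation.pos_iff _).2 (by norm_num)
      have h41 : L.v 4 < 1 := by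
        rw [v_four]
        exact pow_lt_one₀ zero_le h2 two_ne_zero
      have c0 : c ≠ 0 := by
        rintro rfl
        have : (1 : WithZero (Multiplicative ℤ)) ≤ L.v 4 := by simpa using hc
        exact absurd h41 (not_lt.2 this)
      have hμ : L.v ((u * c ^ 2 - 1) / 4) ≤ 1 := by rwa [map_div₀, div_le_one₀ h40]
      have hun : ∀ t, L.v t ≤ 1 → L.v (1 + 2 * t) = 1 := fun t ht =>
        L.v.map_one_add_of_lt (by rw [map_mul]; exact mul_lt_one_of_lt_of_le h2 ht)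
      have hdiv : ∀ a : E, IsSquare (a * c ^ 2) → IsSquare a := by
        rintro a ⟨d, hd⟩
        refine ⟨d / c, ?_⟩
        field_simp
        linear_combination hd
      rcases hAS h2 _ hμ with ⟨t, ht, h⟩ | ⟨t, ht, h⟩
      · refine Or.inl (hdiv u (sq_of_close L (hun t ht) ?_))
        rw [show u * c ^ 2 - (1 + 2 * t) ^ 2 = 4 * ((u * c ^ 2 - 1) / 4 - (t ^ 2 + t)) by ring,
          map_mul]
        exact mul_lt_of_lt_one_right h40 h
      · refine Or.inr (Or.inl (hdiv _ (sq_of_close L (hun t ht) ?_)))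
        rw [show u * (1 + 4 * ρ) * c ^ 2 - (1 + 2 * t) ^ 2 =
          4 * ((u * c ^ 2 - 1) / 4 + ρ - (t ^ 2 + t) + (u * c ^ 2 - 1) * ρ) by ring, map_mul]
        refine mul_lt_of_lt_one_right h40 (L.v.map_add_lt h ?_)
        rw [map_mul, hρ1, mul_one]
        exact hc.trans_lt h41
    · have h4 : L.v 4 = 1 := by rw [v_four, h2, one_pow]
      rcases res_nonsq L hu.le hΔ.le with ⟨x, hx⟩ | ⟨x, hx⟩ | ⟨x, hx⟩
      · exact Or.inl (sq_of_close L (v_eq_of_sq L (v_eq_of_sub_lt L hu hx)) (by rwa [h4]))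
      · exact absurd hx (hodd h2 x)
      · refine Or.inr (Or.inl (sq_of_close L (v_eq_of_sq L (v_eq_of_sub_lt L ?_ hx)) (by rwa [h4])))
        rw [map_mul, hu, hΔ, one_mul]

end Pool.Agent.P.MP_3c2f8c_gt
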