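import Pool.Agent.P.MP_3c2f8c_gt.NT.Chev
import Pool.Agent.P.MP_3c2f8c_gt.NT.WA
import Pool.Agent.P.MP_3c2f8c_gt.NT.Local2

/-! NT-8: the Hasse norm theorem for quadratic extensions. -/

namespace Pool.Agent.P.MP_3c2f8c_gt

open Matrix NumberField IsDedekindDomain
open Pool.Agent.P.MP_9ec3f0_nt.SY

variable {F : Type} [Field F] [NumberField F]

namespace NormAux

theorem pow_le_index {G ι : Type} [Group G] [Finite ι] (N : ι → Subgroup G)
    (h0 : (⨅ i, N i).index ≠ 0) (h : ∀ p : ι → Bool, ∃ x, ∀ i, x ∈ N i ↔ p i = true) :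
    2 ^ Nat.card ι ≤ (⨅ i, N i).index := by
  have : Finite (G ⧸ ⨅ i, N i) := Subgroup.index_ne_zero_iff_finite.1 h0
  choose x hx using h
  have hinj : Function.Injective fun p : ι → Bool => (x p : G ⧸ ⨅ i, N i) := fun p q e => by
    funext i
    have h1 := Subgroup.mem_iInf.1 (QuotientGroup.eq.1 e) i
    rw [Bool.eq_iff_iff, ← hx, ← hx, ← (N i).inv_mem_iff (x := x p)]
    exact ⟨fun h2 => ((N i).mul_mem_cancel_left h2).1 h1,
      fun h2 => ((N i).mul_mem_cancel_right h2).1 h1⟩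
  have h2 := Nat.card_le_card_of_injective _ hinj
  rwa [Nat.card_fun, Nat.card_eq_fintype_card, Fintype.card_bool] at h2

theorem isNm_of_sq {R : Type} [CommRing R] (a : R) {x : R} (h : IsSquare x) : IsNm a x := by
  obtain ⟨y, rfl⟩ := h
  exact ⟨y, 0, by ring⟩

/-- The elements that are norms after the base change `ψ`. -/
def NG {L : Type} [Field L] (ψ : F →+* L) (a : F) : Subgroup Fˣ where
  carrier := {x | IsNm (ψ a) (ψ x)}
  one_mem' := ⟨1, 0, by simp⟩
  mul_mem' := fun {x y} hx hy => by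
    have := IsNm.mul hx hy
    simpa using this
  inv_mem' := fun {x} hx => by
    have h := IsNm.mul hx (isNm_sq (ψ a) (ψ x)⁻¹)
    have h0 : ψ x ≠ 0 := (map_ne_zero ψ).2 x.ne_zero
    rw [sq, mul_inv_cancel_left₀ h0] at h
    simpa using h

omit [NumberField F] in
theorem mem_NG {L : Type} [Field L] {ψ : F →+* L} {a : F} {x : Fˣ} :
    x ∈ NG ψ a ↔ IsNm (ψ a) (ψ x) := Iff.rfl

theorem isNm_real {a x : ℝ} (ha : a < 0) (hx : x ≠ 0) : IsNm a x ↔ 0 < x := by
  constructor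
  · rintro ⟨s, t, h⟩
    refine lt_of_le_of_ne ?_ hx.symm
    nlinarith [sq_nonneg s, sq_nonneg t]
  · exact fun h => ⟨√x, 0, by rw [Real.sq_sqrt h.le]; ring⟩

/-- The local norm groups at the primes of `R` and at the real places where `a` is negative. -/
noncomputable def NL (R : Finset (Pr F)) (a : F) :
    R ⊕ {φ : F →+* ℝ // φ a < 0} → Subgroup Fˣ :=
  Sum.elim (fun v => NG (algebraMap F (v.1.adicCompletion F)) a) fun φ => NG φ.1 a

theorem patterns (R : Finset (Pr F)) {a : F} (ha : a ≠ 0) (hR : ∀ v ∈ R, ¬ SplitAt v a)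
    (p : R ⊕ {φ : F →+* ℝ // φ a < 0} → Bool) : ∃ x, ∀ i, x ∈ NL R a i ↔ p i = true := by
  classical
  have hex : ∀ v : Pr F, ∃ y : v.adicCompletion F, y ≠ 0 ∧ ∀ hv : v ∈ R,
      ∀ x, x ≠ 0 → IsSquare (x * y) →
        (IsNm (algebraMap F (v.adicCompletion F) a) x ↔ p (.inl ⟨v, hv⟩) = true) := fun v => by
    by_cases hv : v ∈ R
    swap
    · exact ⟨1, one_ne_zero, fun h => absurd h hv⟩
    cases hp : p (.inl ⟨v, hv⟩)
    · have := adic_charZero v
      obtain ⟨L, -⟩ := exists_adicLF v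
      obtain ⟨y, hy, hy'⟩ := L.exists_nonnorm fun h => hR v hv ((splitAt_iff v ha).2 h)
      refine ⟨y, hy, fun _ x hx h => ?_⟩
      rw [hp]
      exact ⟨fun h1 => absurd (h1.of_mul hx (isNm_of_sq _ h)) hy', fun h1 => by simp at h1⟩
    · refine ⟨1, one_ne_zero, fun _ x _ h => ?_⟩
      rw [hp]
      exact ⟨fun _ => rfl, fun _ => isNm_of_sq _ (by simpa using h)⟩
  choose y hy hy' using hex
  obtain ⟨x, hx, h1, h2⟩ := weak_approx_sq R y (fun v _ => hy v)
    (fun φ => if h : φ a < 0 then if p (.inr ⟨φ, h⟩) = true then 1 else -1 else 1)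
    (fun φ => by split_ifs <;> simp)
  refine ⟨Units.mk0 x hx, ?_⟩
  rintro (v | φ)
  · exact hy' v.1 v.2 _ ((map_ne_zero _).2 hx) (h1 v.1 v.2)
  · have h3 := h2 φ.1
    rw [dif_pos φ.2] at h3
    refine (isNm_real φ.2 ((map_ne_zero _).2 hx)).trans ?_
    split_ifs at h3 with h
    · exact ⟨fun _ => h, fun _ => by linarith⟩
    · exact ⟨fun h4 => by linarith, fun h4 => absurd h4 h⟩

theorem mem_Nm {M : Type} [Field M] [NumberField M] [Algebra F M] (Q : Quad F M) {x : Fˣ}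
    (h : x ∈ HasseAux.Nm Q) : IsNm Q.a (x : F) := by
  obtain ⟨z, hz⟩ := h
  obtain ⟨α, β, rfl⟩ := Q.exists_coords z
  refine ⟨α, β, (algebraMap F M).injective ?_⟩
  rw [← hz, map_add, map_mul, AlgEquiv.commutes, AlgEquiv.commutes, Q.σ_r, map_sub, map_mul,
    map_pow, map_pow, ← Q.r_sq]
  ring

end NormAux

open NormAux HasseAux in
theorem hasse_norm_adic {a b : F} (ha : a ≠ 0) (hb : b ≠ 0)
    (hfin : ∀ v : Pr F, IsNm (algebraMap F (v.adicCompletion F) a)
      (algebraMap F (v.adicCompletion F) b))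
    (hre : ∀ φ : F →+* ℝ, IsNm (φ a) (φ b)) : IsNm a b := by
  classical
  by_cases hsq : IsSquare a
  · exact isNm_of_isSquare ha hsq b
  obtain ⟨M, _, _, _, Q, rfl⟩ := exists_quad_ext F a hsq
  by_contra hn
  obtain ⟨S0, hS0⟩ := exists_classGen F
  have two : (2 : F) ≠ 0 := two_ne_zero
  let S : Finset (Pr F) := S0 ∪ (finite_ord two).toFinset ∪ (finite_ord ha).toFinset ∪
    (finite_ord hb).toFinset
  have hS : ClassGen S := hS0.mono fun v hv => by simp [S, hv]
  have hout : ∀ v, v ∉ S → ord v (2 : F) = 0 ∧ ord v Q.a = 0 ∧ ord v b = 0 := by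
    intro v hv
    simp only [S, Finset.mem_union, Set.Finite.mem_toFinset, Set.mem_ofPred_eq, not_or,
      not_not] at hv
    exact ⟨hv.1.1.2, hv.1.2, hv.2⟩
  have h2 : ∀ v, v ∉ S → v.valuation F 2 = 1 := fun v hv =>
    (val_eq_one_iff v two).2 (hout v hv).1
  have ha' : ∀ v, v ∉ S → v.valuation F Q.a = 1 := fun v hv =>
    (val_eq_one_iff v ha).2 (hout v hv).2.1
  obtain ⟨T, t1, t2, t3⟩ := exists_TR Q S h2 ha' _ le_rfl
  obtain ⟨H, H1, H2, H3⟩ := local_indexR S
  have hdis : Disjoint S T := Finset.disjoint_right.2 fun v hv => (t2 v hv).1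
  have e1 : H.relIndex (SU (S ∪ T)) = (Sq F).relIndex (SU (S ∪ T)) := by
    rw [← Subgroup.inf_relIndex_right, ← Subgroup.inf_relIndex_right (Sq F)]
    congr 1
    ext x
    simp only [Subgroup.mem_inf, and_congr_left_iff, H1, mem_Sq]
    intro hx
    constructor
    · exact fun h => sq_of_splitR S T hS h2 (fun v hv => (t2 v hv).1) (by rw [t3, t1]) x.ne_zero
        (fun v h1 h3 => (mem_SU _ x).1 hx v (by simp [h1, h3])) h.1 h.2
    · rintro ⟨y, hy⟩
      have : y ≠ 0 := by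
        rintro rfl
        exact x.ne_zero (by simpa using hy)
      rw [hy]
      refine ⟨fun v _ => ?_, fun φ => ?_⟩
      · rw [← sq]
        exact splitAt_sq v this
      · rw [map_mul]
        exact mul_self_pos.2 ((map_ne_zero φ).2 this)
  rw [relIndex_Sq, Finset.card_union_of_disjoint hdis, t1] at e1
  have e2 := Subgroup.relIndex_mul_index (le_sup_right : H ≤ SU (S ∪ T) ⊔ H)
  rw [Subgroup.relIndex_sup_right, e1] at e2
  have e3 : (SU (S ∪ T) ⊔ H).index ≤ 2 := by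
    refine Nat.le_of_mul_le_mul_left (c := 2 ^ (Units.rank F + (S.card +
      (Units.rank F + S.card)) + 1)) ?_ (by positivity)
    rw [e2, ← pow_succ]
    refine H3.trans (le_of_eq ?_)
    rw [show (4 : ℕ) = 2 ^ 2 from rfl, ← pow_mul]
    congr 1
    ring
  have e4 : (SU (S ∪ T) ⊔ H).index ≠ 0 := fun h => H2 (by rw [← e2, h, mul_zero])
  let R := S.filter fun v => ¬ SplitAt v Q.a
  let N : Subgroup Fˣ := ⨅ i, NL R Q.a i
  have e5 : H ≤ N := fun x hx => Subgroup.mem_iInf.2 fun i => by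
    rcases i with v | φ
    · exact isNm_of_sq _ ((splitAt_iff v.1 x.ne_zero).1
        (((H1 x).1 hx).1 v.1 (Finset.mem_filter.1 v.2).1))
    · exact (isNm_real φ.2 ((map_ne_zero _).2 x.ne_zero)).2 (((H1 x).1 hx).2 φ.1)
  have e6 : Nm Q ≤ N := fun x hx => Subgroup.mem_iInf.2 fun i => by
    rcases i with v | φ
    exacts [(mem_Nm Q hx).map _, (mem_Nm Q hx).map _]
  have e7 : Sq F ≤ Nm Q := by
    rintro x ⟨y, rfl⟩
    exact ⟨algebraMap F M y, by simp [sq]⟩
  have e8 := Subgroup.relIndex_mul_index (le_sup_right : N ≤ SU (S ∪ T) ⊔ N)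
  rw [Subgroup.relIndex_sup_right] at e8
  have e8' : 2 ^ (R.card + Nat.card {φ : F →+* ℝ // φ Q.a < 0}) ≤ N.index := by
    have := pow_le_index (NL R Q.a)
      (fun h => H2 (zero_dvd_iff.1 (h ▸ Subgroup.index_dvd_of_le e5)))
      (patterns R ha fun v hv => (Finset.mem_filter.1 hv).2)
    rwa [Nat.card_sum, Nat.card_eq_finsetCard] at this
  have e9 : (SU (S ∪ T) ⊔ N).index ≤ 2 :=
    (Nat.le_of_dvd (Nat.pos_of_ne_zero e4)
      (Subgroup.index_dvd_of_le (sup_le_sup_left e5 _))).trans e3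
  have e10 : (Nm Q).relIndex (SU (S ∪ T)) ≠ 0 := fun h => by
    have := Subgroup.relIndex_dvd_of_le_left (SU (S ∪ T)) e7
    rw [h, relIndex_Sq, zero_dvd_iff] at this
    exact absurd this (by positivity)
  have e11 := Subgroup.relIndex_inf_mul_relIndex (Nm Q) N (SU (S ∪ T))
  rw [inf_eq_left.2 e6] at e11
  have e12 : (Nm Q).relIndex (N ⊓ SU (S ∪ T)) ≠ 1 := fun h => by
    have hm : Units.mk0 b hb ∈ N ⊓ SU (S ∪ T) :=
      ⟨Subgroup.mem_iInf.2 fun i => by
        rcases i with v | φ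
        exacts [hfin v.1, hre φ.1], (mem_SU _ _).2 fun v hv =>
        (hout v fun h1 => hv (Finset.mem_union_left _ h1)).2.2⟩
    exact hn (mem_Nm Q (Subgroup.relIndex_eq_one.1 h hm))
  have e13 : (Nm Q).relIndex (N ⊓ SU (S ∪ T)) ≠ 0 := fun h => e10 (by rw [← e11, h, zero_mul])
  have e14 := lemmaAR Q (S ∪ T) (hS.mono Finset.subset_union_left)
    (fun w hw => Q.unrP_of_unrAt (by
      have hw' : dn F w ∉ S := fun h => hw (Finset.mem_union_left _ h)
      exact unrAt_of_odd (h2 _ hw') ha (by rw [(hout _ hw').2.1]; exact Even.zero))) R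
    (fun w hw hf => Finset.mem_filter.2 ⟨(Finset.mem_union.1 hw).resolve_right fun h =>
      Q.not_fixes_of_splitAt (t2 _ h).2 hf, fun h => Q.not_fixes_of_splitAt h hf⟩)
    (A := Nm Q) le_rfl (fun _ _ h => h) e10
  have e15 := Nat.mul_le_mul_left (N.relIndex (SU (S ∪ T))) e9
  have e16 := Nat.mul_le_mul_right (N.relIndex (SU (S ∪ T)))
    (show 2 ≤ (Nm Q).relIndex (N ⊓ SU (S ∪ T)) by omega)
  omega

end Pool.Agent.P.MP_3c2f8c_gt
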